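import Pool.Agent.L0h5.AG.A4
import Pool.Agent.L0h5.TF.Exp
import Pool.Agent.W307.RT.RAT1

/-!
# The joint Euler product over a set of indices without symbols
-/

set_option autoImplicit false

namespace Pool.Agent.L0h5.AH

open Finset Pool.Agent.W262.RK Pool.Agent.W262.RK.AT Pool.Agent.L0h5.AG
open Pool.Agent.W762.RK2 (Pr Pr_prime sum_Tup Dl)
open Pool.Agent.W108.RK (mem_Tup)
open Pool.Agent.W307.RT (tE tF mem_tE mem_tF sum_split Sym_split RW abs_RW_le Ps Ps_one Ps_mul)

variable {ι : Type} [Fintype ι] [DecidableEq ι]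

/-- the Euler product of a sum over coprime tuples -/
lemma sum_ep (g : ι → ℕ → ℝ) (z y : ℕ) :
    ∑ d ∈ Tup ι z y, ∏ i, gg g i (d i) = ∏ p ∈ PS z y, (1 + ∑ i, g i p) := by
  rw [sum_Tup]
  have h1 : ∀ l : Pr z y → Option ι, ∏ i, gg g i (Dl l i) =
      ∏ p : Pr z y, (l p).elim 1 fun i => g i p := fun l => Pool.Agent.L0h5.TF.prod_gg g l
  rw [sum_congr rfl fun l _ => h1 l]
  have h2 := prod_univ_sum (fun _ : Pr z y => (univ : Finset (Option ι)))
    (fun p o => o.elim 1 fun i => g i (p : ℕ))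
  rw [Fintype.piFinset_univ] at h2
  rw [← h2, ← Finset.prod_coe_sort (PS z y) (fun p => 1 + ∑ i, g i p)]
  refine prod_congr rfl fun p _ => ?_
  rw [Fintype.sum_option]
  rfl

/-- the character of the variable `i` -/
noncomputable def Xp (L : ι → ι → Bool) (e : ι → ℕ) (i : ι) (m : ℕ) : ℝ := Ps L (fun _ => 1) e i m

lemma Xp_one (L : ι → ι → Bool) (e : ι → ℕ) (i : ι) : Xp L e i 1 = 1 := Ps_one _ _ _ _

lemma Xp_eq (L : ι → ι → Bool) (e : ι → ℕ) (i : ι) (m : ℕ) : Xp L e i m = XX L i e m := by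
  unfold Xp Ps
  rw [Jr_one_left', mul_one]

/-- the characters are multiplicative -/
lemma Xp_prod (L : ι → ι → Bool) (e : ι → ℕ) (i : ι) (s : Finset ℕ) (hs : ∀ p ∈ s, p ≠ 0) :
    Xp L e i (∏ p ∈ s, p) = ∏ p ∈ s, Xp L e i p := by
  classical
  induction s using Finset.induction_on with
  | empty => simp [Xp_one]
  | insert a s ha ih =>
    have h1 : ∀ p ∈ s, p ≠ 0 := fun p hp => hs p (mem_insert_of_mem hp)
    rw [prod_insert ha, prod_insert ha, ← ih h1]
    exact Ps_mul _ _ _ _ (hs a (mem_insert_self _ _)) (prod_ne_zero_iff.2 h1)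

variable {g : ι → ℕ → ℝ} {L : ι → ι → Bool} {z y : ℕ}

/-- the sum over the tuples coprime to `R` with entries in `S` -/
lemma sum_coprime (S : Finset ι) (L : ι → ι → Bool) (e : ι → ℕ) (R : ℕ) :
    ∑ f ∈ (Tup ι z y).filter (fun f => (∀ i, (f i).Coprime R) ∧ ∀ i, i ∉ S → f i = 1),
      ∏ i ∈ S, (gg g i (f i) * Xp L e i (f i)) =
    ∏ p ∈ (PS z y).filter (fun p => ¬ p ∣ R), (1 + ∑ i ∈ S, g i p * Xp L e i p) := by
  classical
  set g' : ι → ℕ → ℝ := fun i p => if i ∈ S ∧ ¬ p ∣ R then g i p * Xp L e i p else 0 with hg'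
  have h1 := sum_ep g' z y
  have h2 : ∏ p ∈ PS z y, (1 + ∑ i, g' i p) =
      ∏ p ∈ (PS z y).filter (fun p => ¬ p ∣ R), (1 + ∑ i ∈ S, g i p * Xp L e i p) := by
    rw [prod_filter]
    refine prod_congr rfl fun p _ => ?_
    by_cases hp : p ∣ R
    · rw [if_neg (not_not.2 hp)]
      have : ∀ i, g' i p = 0 := fun i => by
        rw [hg']
        simp only
        rw [if_neg (fun h => h.2 hp)]
      simp [this]
    · rw [if_pos hp]
      congr 1
      rw [← sum_filter_add_sum_filter_not univ (fun i => i ∈ S)]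
      have e1 : ∑ i ∈ univ.filter (fun i => ¬ i ∈ S), g' i p = 0 := by
        refine sum_eq_zero fun i hi => ?_
        rw [hg']
        simp only
        rw [if_neg (fun h => (mem_filter.1 hi).2 h.1)]
      have e2 : univ.filter (fun i => i ∈ S) = S := by
        ext i
        simp
      rw [e1, add_zero, e2]
      refine sum_congr rfl fun i hi => ?_
      rw [hg']
      simp only
      rw [if_pos ⟨hi, hp⟩]
  rw [← h2, ← h1]
  have h4 : ∀ f ∈ (Tup ι z y).filter (fun f => (∀ i, (f i).Coprime R) ∧ ∀ i, i ∉ S → f i = 1),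
      ∏ i ∈ S, (gg g i (f i) * Xp L e i (f i)) = ∏ i, gg g' i (f i) := by
    intro f hf
    rw [mem_filter] at hf
    obtain ⟨hf1, hf2, hf3⟩ := hf
    obtain ⟨hf4, -⟩ := mem_Tup.1 hf1
    rw [← prod_subset (subset_univ S) (fun i _ hi => by rw [hf3 i hi]; simp [gg])]
    refine prod_congr rfl fun i hi => ?_
    have hsq : Squarefree (f i) := (PP_squarefree z y).squarefree_of_dvd (hf4 i)
    have e1 : Xp L e i (f i) = ∏ p ∈ (f i).primeFactors, Xp L e i p := by
      conv_lhs => rw [← Nat.prod_primeFactors_of_squarefree hsq]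
      exact Xp_prod L e i _ fun p hp => (Nat.prime_of_mem_primeFactors hp).ne_zero
    rw [e1]
    unfold gg
    rw [← prod_mul_distrib]
    refine prod_congr rfl fun p hp => ?_
    have hnd : ¬ p ∣ R := by
      intro hd
      have h5 := Nat.dvd_gcd (Nat.dvd_of_mem_primeFactors hp) hd
      rw [(hf2 i).gcd_eq_one] at h5
      exact (Nat.prime_of_mem_primeFactors hp).one_lt.ne' (Nat.dvd_one.1 h5)
    rw [hg']
    simp only
    rw [if_pos ⟨hi, hnd⟩]
  rw [sum_congr rfl h4]
  refine sum_subset (filter_subset _ _) ?_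
  intro f hf1 hf2
  rw [mem_filter, not_and] at hf2
  obtain ⟨hf3, -⟩ := mem_Tup.1 hf1
  have h3 := hf2 hf1
  rw [not_and_or] at h3
  have key : ∃ i p, p ∈ (f i).primeFactors ∧ g' i p = 0 := by
    rcases h3 with h3 | h3
    · push Not at h3
      obtain ⟨i, hi⟩ := h3
      obtain ⟨p, hp, hp1, hp2⟩ := Nat.Prime.not_coprime_iff_dvd.1 hi
      refine ⟨i, p, Nat.mem_primeFactors.2 ⟨hp, hp1, ?_⟩, ?_⟩
      · exact fun h0 => PP_ne_zero z y (Nat.eq_zero_of_zero_dvd (h0 ▸ hf3 i))
      · rw [hg']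
        simp only
        rw [if_neg (fun h => h.2 hp2)]
    · push Not at h3
      obtain ⟨i, hi, hi1⟩ := h3
      obtain ⟨p, hp, hp1⟩ := Nat.exists_prime_and_dvd hi1
      refine ⟨i, p, Nat.mem_primeFactors.2 ⟨hp, hp1, ?_⟩, ?_⟩
      · exact fun h0 => PP_ne_zero z y (Nat.eq_zero_of_zero_dvd (h0 ▸ hf3 i))
      · rw [hg']
        simp only
        rw [if_neg (fun h => hi h.1)]
  obtain ⟨i, p, hp, h0⟩ := key
  refine prod_eq_zero (mem_univ i) ?_
  unfold gg
  exact prod_eq_zero hp h0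

/-- **The inner sum over the variables of `S`** -/
lemma joint (S : Finset ι) (hS : ∀ i ∈ S, ∀ j ∈ S, L i j = false) {t : ι → Finset ℕ}
    (ht : ∀ b ∈ S, t b = (PP z y).divisors) {e : ι → ℕ} (he1 : ∀ b ∈ S, e b = 1)
    (_heD : ∀ b, e b ∈ (PP z y).divisors)
    (hpos : ∀ p ∈ PS z y, ¬ p ∣ ∏ b, e b → 0 ≤ 1 + ∑ i ∈ S, g i p * XX L i e p) :
    |∑ f ∈ Fintype.piFinset (tF S t), HG g L (fun b => e b * f b)| ≤
      (∏ b ∈ univ \ S, |gg g b (e b)|) *
        ∏ p ∈ (PS z y).filter (fun p => ¬ p ∣ ∏ b, e b), (1 + ∑ i ∈ S, g i p * XX L i e p) := by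
  classical
  have hnn : 0 ≤ (∏ b ∈ univ \ S, |gg g b (e b)|) *
      ∏ p ∈ (PS z y).filter (fun p => ¬ p ∣ ∏ b, e b), (1 + ∑ i ∈ S, g i p * XX L i e p) :=
    mul_nonneg (prod_nonneg fun _ _ => abs_nonneg _)
      (prod_nonneg fun p hp => hpos p (mem_filter.1 hp).1 (mem_filter.1 hp).2)
  by_cases hcop : ∀ a b, a ≠ b → (e a).Coprime (e b)
  swap
  · have h0 : ∀ f ∈ Fintype.piFinset (tF S t), HG g L (fun b => e b * f b) = 0 := by
      intro f _
      unfold HG
      rw [if_neg]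
      intro h
      apply hcop
      intro a b hab
      exact Nat.Coprime.coprime_mul_right (Nat.Coprime.coprime_mul_right_right (h a b hab))
    rw [sum_eq_zero h0, abs_zero]
    exact hnn
  set R := ∏ b, e b with hR
  have hcR : ∀ m : ℕ, m.Coprime R ↔ ∀ b, m.Coprime (e b) := by
    intro m
    rw [hR, Nat.coprime_prod_right_iff]
    simp
  have hkey : ∑ f ∈ Fintype.piFinset (tF S t), HG g L (fun b => e b * f b) =
      ((∏ b ∈ univ \ S, gg g b (e b)) * RW L (fun _ => 1) S e) *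
        ∑ d ∈ (Tup ι z y).filter (fun d => (∀ i, (d i).Coprime R) ∧ ∀ i, i ∉ S → d i = 1),
          ∏ i ∈ S, (gg g i (d i) * Xp L e i (d i)) := by
    have h1 : (Tup ι z y).filter (fun d => (∀ i, (d i).Coprime R) ∧ ∀ i, i ∉ S → d i = 1) =
        (Fintype.piFinset (tF S t)).filter (fun d => (∀ i j, i ≠ j → (d i).Coprime (d j)) ∧
          ∀ i, (d i).Coprime R) := by
      ext d
      unfold Tup
      rw [mem_filter, mem_filter, mem_filter, Fintype.mem_piFinset, mem_tF]
      constructor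
      · rintro ⟨⟨h1, h2⟩, h3, h4⟩
        exact ⟨⟨fun b hb => by rw [ht b hb]; exact h1 b, h4⟩, h2, h3⟩
      · rintro ⟨⟨h1, h4⟩, h2, h3⟩
        refine ⟨⟨fun b => ?_, h2⟩, h3, h4⟩
        by_cases hb : b ∈ S
        · rw [← ht b hb]; exact h1 b hb
        · rw [h4 b hb]; exact one_mem_dv z y
    rw [h1, mul_sum, sum_filter]
    apply sum_congr rfl
    intro f hf
    obtain ⟨hf1, hf2⟩ := mem_tF.1 hf
    have hiff : (∀ a b, a ≠ b → (e a * f a).Coprime (e b * f b)) ↔
        (∀ i j, i ≠ j → (f i).Coprime (f j)) ∧ ∀ i, (f i).Coprime R := by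
      constructor
      · intro h
        refine ⟨fun i j hij => Nat.Coprime.coprime_mul_left
          (Nat.Coprime.coprime_mul_left_right (h i j hij)), fun i => ?_⟩
        rw [hcR]
        intro b
        by_cases hib : i = b
        · subst hib
          by_cases hi : i ∈ S
          · rw [he1 i hi]; exact Nat.coprime_one_right _
          · rw [hf2 i hi]; exact Nat.coprime_one_left _
        · exact Nat.Coprime.coprime_mul_left (Nat.Coprime.coprime_mul_right_right (h i b hib))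
      · rintro ⟨h1, h2⟩ a b hab
        have h2a := (hcR _).1 (h2 a)
        have h2b := (hcR _).1 (h2 b)
        exact Nat.Coprime.mul_left (Nat.Coprime.mul_right (hcop a b hab) (h2b a).symm)
          (Nat.Coprime.mul_right (h2a b) (h1 a b hab))
    unfold HG
    by_cases hc : (∀ i j, i ≠ j → (f i).Coprime (f j)) ∧ ∀ i, (f i).Coprime R
    · rw [if_pos (hiff.2 hc), if_pos hc, Sym_split _ hS he1 hf2]
      have h3 : ∏ i, gg g i (e i * f i) = (∏ b ∈ univ \ S, gg g b (e b)) *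
          ∏ i ∈ S, gg g i (f i) := by
        rw [← prod_sdiff (subset_univ S)]
        congr 1
        · apply prod_congr rfl
          intro b hb
          rw [hf2 b (mem_sdiff.1 hb).2, mul_one]
        · apply prod_congr rfl
          intro b hb
          rw [he1 b hb, one_mul]
      rw [h3, prod_mul_distrib]
      unfold Xp
      ring
    · rw [if_neg (fun h => hc (hiff.1 h)), if_neg hc]
  rw [hkey, sum_coprime, abs_mul, abs_mul, abs_prod]
  have h5 : ∏ p ∈ (PS z y).filter (fun p => ¬ p ∣ R), (1 + ∑ i ∈ S, g i p * Xp L e i p) =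
      ∏ p ∈ (PS z y).filter (fun p => ¬ p ∣ R), (1 + ∑ i ∈ S, g i p * XX L i e p) :=
    prod_congr rfl fun p _ => by
      congr 1
      exact sum_congr rfl fun i _ => by rw [Xp_eq]
  rw [h5, abs_of_nonneg (a := ∏ p ∈ (PS z y).filter (fun p => ¬ p ∣ R), _)
    (prod_nonneg fun p hp => hpos p (mem_filter.1 hp).1 (mem_filter.1 hp).2)]
  refine mul_le_mul_of_nonneg_right ?_
    (prod_nonneg fun p hp => hpos p (mem_filter.1 hp).1 (mem_filter.1 hp).2)
  exact mul_le_of_le_one_right (prod_nonneg fun _ _ => abs_nonneg _) (abs_RW_le _ _ _ _)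

end Pool.Agent.L0h5.AH
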