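import Pool.Agent.L0h5.AH.B1

/-!
# The sum over all values of the variables of a set without symbols
-/

set_option autoImplicit false

namespace Pool.Agent.L0h5.AH

open Finset Pool.Agent.W262.RK Pool.Agent.W262.RK.AT Pool.Agent.L0h5.AG
open Pool.Agent.W307.RT (tE tF mem_tE mem_tF sum_split)

variable {ι : Type} [Fintype ι] [DecidableEq ι]

/-- the joint bound for the indices of `S`, with room in the exponent -/
def JtA (g : ι → ℕ → ℝ) (L : ι → ι → Bool) (S : Finset ι) (z : ℕ) (K : ℝ) : Prop :=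
  ∃ (m : ℕ → ℝ) (K' Cm : ℝ), K' < K ∧ (∀ p, 0 ≤ m p) ∧
    (∀ y : ℕ, z < y → ∑ p ∈ PS z y, m p ≤ K' * Real.log (Real.log y) + Cm) ∧
    ∀ y : ℕ, z < y → ∀ e : ι → ℕ, (∀ b, e b ∈ (PP z y).divisors) → (∀ b ∈ S, e b = 1) →
      ∀ p ∈ PS z y, ¬ p ∣ ∏ b, e b → ∑ i ∈ S, g i p * XX L i e p ≤ m p

/-- the joint bound for the indices of `S`, with a saving -/
def JtB (g : ι → ℕ → ℝ) (L : ι → ι → Bool) (S : Finset ι) (z : ℕ) (K ep Gb : ℝ) : Prop :=
  ∃ (m gp : ℕ → ℝ) (Cm : ℝ) (TS : Finset ι), TS ⊆ S ∧ (∀ p, 0 ≤ m p) ∧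
    (∀ p, p.Prime → z < p → 0 ≤ gp p ∧ gp p ≤ Gb / (p : ℝ)) ∧
    (∀ y : ℕ, z < y → ∑ p ∈ PS z y, m p ≤ K * Real.log (Real.log y) + Cm) ∧
    (∀ y : ℕ, z < y → |∑ p ∈ PS z y, gp p - ep * Real.log (Real.log y)| ≤ Cm) ∧
    (∀ y : ℕ, z < y → ∀ e : ι → ℕ, (∀ b, e b ∈ (PP z y).divisors) → (∀ b ∈ S, e b = 1) →
      ∀ p ∈ PS z y, ¬ p ∣ ∏ b, e b → ∑ i ∈ S, g i p * XX L i e p ≤ m p ∧ ∀ i0 ∈ TS,
        ∑ i ∈ S, g i p * XX L i e p ≤ m p - gp p * (1 - XX L i0 e p)) ∧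
    ∀ j, j ∉ S → ∃ i ∈ TS, L i j ≠ L j i

variable {g : ι → ℕ → ℝ} {e : ι → ℝ} {L : ι → ι → Bool} {c z : ℕ} {C : ℝ}

omit [DecidableEq ι] in
lemma pos_fac (hB : Bw g e c z C) (hz : c + Fintype.card ι ≤ z) (S : Finset ι) {p : ℕ}
    (hp : p.Prime) (hzp : z < p) (x : ι → ℝ) (hx : ∀ i ∈ S, |x i| ≤ 1) :
    0 ≤ 1 + ∑ i ∈ S, g i p * x i := by
  have hpc : (Fintype.card ι : ℝ) ≤ (p : ℝ) - c := by
    have : (c : ℝ) + Fintype.card ι ≤ p := by exact_mod_cast (by omega : c + Fintype.card ι ≤ p)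
    linarith
  have hpc0 : (0 : ℝ) < (p : ℝ) - c := by
    have : (c : ℝ) + 1 ≤ p := by exact_mod_cast (by omega : c + 1 ≤ p)
    linarith
  have h1 : |∑ i ∈ S, g i p * x i| ≤ ∑ i ∈ S, (1 / 2) / ((p : ℝ) - c) := by
    refine (abs_sum_le_sum_abs _ _).trans (sum_le_sum fun i hi => ?_)
    rw [abs_mul]
    calc |g i p| * |x i| ≤ |g i p| * 1 := mul_le_mul_of_nonneg_left (hx i hi) (abs_nonneg _)
      _ ≤ _ := by rw [mul_one]; exact hB.g1 i p hp hzp
  rw [sum_const, nsmul_eq_mul] at h1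
  have h2 : (S.card : ℝ) ≤ Fintype.card ι := by exact_mod_cast card_le_univ S
  have h3 : (S.card : ℝ) * ((1 / 2) / ((p : ℝ) - c)) ≤ 1 := by
    rw [← mul_div_assoc, div_le_one hpc0]
    have : (0 : ℝ) ≤ S.card := Nat.cast_nonneg _
    linarith
  have := (abs_le.1 h1).1
  linarith

lemma abs_XX_le (L : ι → ι → Bool) (i : ι) (e : ι → ℕ) (m : ℕ) : |XX L i e m| ≤ 1 := by
  unfold XX
  apply abs_prod_le_one
  intro b _
  rw [abs_mul]
  exact mul_le_one₀ (abs_ite_Jr _ _ _) (abs_nonneg _) (abs_ite_Jr _ _ _)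

/-- the inner sum is at most an exponential -/
lemma inner_le (hB : Bw g e c z C) (hz : c + Fintype.card ι ≤ z) (S : Finset ι)
    (hS : ∀ i ∈ S, ∀ j ∈ S, L i j = false) {y : ℕ} {t : ι → Finset ℕ}
    (ht : ∀ b ∈ S, t b = (PP z y).divisors) {d : ι → ℕ} (hd1 : ∀ b ∈ S, d b = 1)
    (hdD : ∀ b, d b ∈ (PP z y).divisors) {B : ℝ} {a : ℕ → ℝ}
    (ha : ∀ p ∈ PS z y, ¬ p ∣ ∏ b, d b → ∑ i ∈ S, g i p * XX L i d p ≤ a p)
    (hb : ∑ p ∈ (PS z y).filter (fun p => ¬ p ∣ ∏ b, d b), a p ≤ B) :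
    |∑ f ∈ Fintype.piFinset (tF S t), HG g L (fun b => d b * f b)| ≤
      (∏ b ∈ univ \ S, |gg g b (d b)|) * Real.exp B := by
  have hpos : ∀ p ∈ PS z y, ¬ p ∣ ∏ b, d b → 0 ≤ 1 + ∑ i ∈ S, g i p * XX L i d p :=
    fun p hp _ => pos_fac hB hz S (mem_PS.1 hp).2 (mem_PS.1 hp).1.1 _ fun i _ => abs_XX_le _ _ _ _
  refine (joint S hS ht hd1 hdD hpos).trans ?_
  refine mul_le_mul_of_nonneg_left ?_ (prod_nonneg fun _ _ => abs_nonneg _)
  refine (Pool.Agent.W655.RK.prod_le_exp _ _ fun p hp =>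
    hpos p (mem_filter.1 hp).1 (mem_filter.1 hp).2).trans ?_
  refine Real.exp_le_exp.2 ((sum_le_sum fun p hp => ?_).trans hb)
  exact ha p (mem_filter.1 hp).1 (mem_filter.1 hp).2

/-- the small values -/
def sml (z y V : ℕ) : Finset ℕ := (PP z y).divisors.filter (fun m => m ≤ V)

/-- the ranges: everything for the indices of `S`, small otherwise -/
def tS (S : Finset ι) (z y V : ℕ) (b : ι) : Finset ℕ :=
  if b ∈ S then (PP z y).divisors else sml z y V

omit [Fintype ι] in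
lemma tS_mem {S : Finset ι} {z y V : ℕ} (b : ι) (hb : b ∈ S) :
    tS S z y V b = (PP z y).divisors := by
  unfold tS
  rw [if_pos hb]

omit [Fintype ι] in
lemma tS_not {S : Finset ι} {z y V : ℕ} (b : ι) (hb : b ∉ S) : tS S z y V b = sml z y V := by
  unfold tS
  rw [if_neg hb]

lemma mem_tES {S : Finset ι} {z y V : ℕ} {d : ι → ℕ}
    (h : d ∈ Fintype.piFinset (tE S (tS S z y V))) :
    (∀ b ∈ S, d b = 1) ∧ (∀ b, d b ∈ (PP z y).divisors) ∧ (∀ b, b ∉ S → d b ≤ V) := by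
  obtain ⟨h1, h2⟩ := mem_tE.1 h
  refine ⟨h1, fun b => ?_, fun b hb => ?_⟩
  · by_cases hb : b ∈ S
    · rw [h1 b hb]
      exact one_mem_dv z y
    · have := h2 b hb
      rw [tS_not b hb] at this
      exact (mem_filter.1 this).1
  · have := h2 b hb
    rw [tS_not b hb] at this
    exact (mem_filter.1 this).2

/-- the sum of the weights of the small variables -/
lemma sum_small (hB : Bw g e c z C) (S : Finset ι) {y V : ℕ} (hy : z < y) (hV : 3 ≤ V) :
    ∑ d ∈ Fintype.piFinset (tE S (tS S z y V)), ∏ b ∈ univ \ S, |gg g b (d b)| ≤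
      C ^ Fintype.card ι * (Real.log V) ^ Fintype.card ι := by
  classical
  have hC0 : 0 ≤ C := zero_le_one.trans hB.C1
  have hlV : 1 ≤ Real.log V := by
    rw [Real.le_log_iff_exp_le (by exact_mod_cast (by omega : 0 < V))]
    have h1 : (3 : ℝ) ≤ V := by exact_mod_cast hV
    have h2 := Real.exp_one_lt_d9
    linarith
  have e1 : ∀ d ∈ Fintype.piFinset (tE S (tS S z y V)), ∏ b ∈ univ \ S, |gg g b (d b)| =
      ∏ b, (if b ∈ S then 1 else |gg g b (d b)|) := by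
    intro d _
    have : univ \ S = univ.filter (fun b => b ∉ S) := by
      ext b
      simp
    rw [this, prod_filter]
    refine prod_congr rfl fun b _ => ?_
    by_cases hb : b ∈ S
    · simp [hb]
    · simp [hb]
  rw [sum_congr rfl e1, ← prod_univ_sum (tE S (tS S z y V))
    (fun b m => if b ∈ S then 1 else |gg g b m|), ← mul_pow, ← card_univ, ← prod_const]
  refine prod_le_prod (fun b _ => sum_nonneg fun m _ => ?_) fun b _ => ?_
  · split_ifs
    · exact zero_le_one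
    · exact abs_nonneg _
  · unfold tE
    by_cases hb : b ∈ S
    · simp only [if_pos hb, sum_const, card_singleton, one_smul]
      exact one_le_mul_of_one_le_of_one_le hB.C1 hlV
    · simp only [if_neg hb]
      rw [tS_not b hb]
      refine le_trans ?_ (hB.F2 b y V hy (by omega))
      exact sum_le_sum fun m _ => abs_le_ah g b m

/-- the case with room in the exponent -/
lemma caseA (hB : Bw g e c z C) (hz : c + Fintype.card ι ≤ z) (S : Finset ι)
    (hS : ∀ i ∈ S, ∀ j ∈ S, L i j = false) (A : ℕ) {K : ℝ} (hJ : JtA g L S z K) :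
    ∃ C' : ℝ, ∀ y, z < y →
      |∑ d ∈ Fintype.piFinset (tS S z y (VV A (Real.log y))), HG g L d| ≤
        C' * (Real.log y) ^ K := by
  have hC0 : 0 ≤ C := zero_le_one.trans hB.C1
  obtain ⟨m, K', Cm, hK', hm0, hm1, hm2⟩ := hJ
  obtain ⟨C1, hC1, h1⟩ := log_VV_pow_le A (Fintype.card ι) (show 0 < K - K' by linarith)
  refine ⟨C ^ Fintype.card ι * C1 * Real.exp Cm, fun y hy => ?_⟩
  have hly := one_le_log hB.z2 hy
  have hly0 : 0 < Real.log y := by linarith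
  set l := Real.log y with hl
  set V := VV A l with hV
  rw [sum_split S]
  refine (abs_sum_le_sum_abs _ _).trans ?_
  have e1 : ∀ d ∈ Fintype.piFinset (tE S (tS S z y V)),
      |∑ f ∈ Fintype.piFinset (tF S (tS S z y V)), HG g L (fun b => d b * f b)| ≤
        (∏ b ∈ univ \ S, |gg g b (d b)|) * Real.exp (K' * Real.log l + Cm) := by
    intro d hd
    obtain ⟨hd1, hd2, hd3⟩ := mem_tES hd
    refine inner_le hB hz S hS (tS_mem) hd1 hd2 (hm2 y hy d hd2 hd1) ?_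
    refine le_trans ?_ (hm1 y hy)
    exact sum_le_sum_of_subset_of_nonneg (filter_subset _ _) fun p _ _ => hm0 p
  refine (sum_le_sum e1).trans ?_
  rw [← sum_mul]
  have e2 := sum_small hB S (V := V) hy (three_le_VV A l)
  have e3 := h1 l hly
  have e4 : Real.exp (K' * Real.log l + Cm) = l ^ K' * Real.exp Cm := by
    rw [Real.exp_add, Real.rpow_def_of_pos hly0, mul_comm K']
  rw [e4]
  have e5 : l ^ K' * l ^ (K - K') = l ^ K := by
    rw [← Real.rpow_add hly0]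
    congr 1
    ring
  calc _ ≤ (C ^ Fintype.card ι * (Real.log V) ^ Fintype.card ι) * (l ^ K' * Real.exp Cm) :=
        mul_le_mul_of_nonneg_right e2 (by positivity)
    _ ≤ (C ^ Fintype.card ι * (C1 * l ^ (K - K'))) * (l ^ K' * Real.exp Cm) := by
        refine mul_le_mul_of_nonneg_right (mul_le_mul_of_nonneg_left e3 (by positivity))
          (by positivity)
    _ = C ^ Fintype.card ι * C1 * Real.exp Cm * (l ^ K' * l ^ (K - K')) := by ring
    _ = _ := by rw [e5]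

end Pool.Agent.L0h5.AH
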