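import Pool.Agent.L0h5.AH.B2

/-!
# The sum over all values of the variables of a set without symbols: the case with a saving
-/

set_option autoImplicit false

namespace Pool.Agent.L0h5.AH

open Finset Pool.Agent.W262.RK Pool.Agent.W262.RK.AT Pool.Agent.L0h5.AG
open Pool.Agent.W307.RT (tE tF mem_tE mem_tF sum_split)

variable {ι : Type} [Fintype ι] [DecidableEq ι]

lemma log_VV_lin (A : ℕ) {l : ℝ} (hl : 1 ≤ l) : Real.log (VV A l) ≤ 2 + A * Real.log l := by
  have h0 : (0 : ℝ) < VV A l := by
    have := three_le_VV A l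
    exact_mod_cast (by omega : 0 < VV A l)
  have h1 : Real.log (VV A l) ≤ Real.log 5 + A * Real.log l := by
    calc Real.log (VV A l) ≤ Real.log (5 * l ^ A) := Real.log_le_log h0 (VV_le hl)
      _ = Real.log 5 + A * Real.log l := by
        rw [Real.log_mul (by norm_num) (by positivity), Real.log_pow]
  have h2 : Real.log 5 ≤ 2 := by
    rw [Real.log_le_iff_le_exp (by norm_num)]
    have h := Real.exp_one_gt_d9
    have h2 : Real.exp 2 = Real.exp 1 * Real.exp 1 := by rw [← Real.exp_add]; norm_num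
    rw [h2]
    nlinarith
  linarith

variable {g : ι → ℕ → ℝ} {e : ι → ℝ} {L : ι → ι → Bool} {c z : ℕ} {C : ℝ}

/-- the sum of a small weight over the primes dividing a small number -/
lemma sum_dvd_le {gp : ℕ → ℝ} {Gb : ℝ} (hGb : 0 ≤ Gb) (hz : 0 < z) {y R : ℕ} (hR : R ≠ 0)
    (hgp : ∀ p, p.Prime → z < p → 0 ≤ gp p ∧ gp p ≤ Gb / (p : ℝ)) :
    ∑ p ∈ (PS z y).filter (fun p => p ∣ R), gp p ≤ 2 * Real.log R * (Gb / z) := by
  have hz0 : (0 : ℝ) < z := by exact_mod_cast hz
  have e1 : ∑ p ∈ (PS z y).filter (fun p => p ∣ R), gp p ≤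
      ∑ p ∈ (PS z y).filter (fun p => p ∣ R), Gb / (z : ℝ) := by
    refine sum_le_sum fun p hp => ?_
    have hp' := mem_PS.1 (mem_filter.1 hp).1
    refine (hgp p hp'.2 hp'.1.1).2.trans ?_
    exact div_le_div_of_nonneg_left hGb hz0 (by exact_mod_cast hp'.1.1.le)
  rw [sum_const, nsmul_eq_mul] at e1
  have e2 : ((PS z y).filter (fun p => p ∣ R)).card ≤ R.primeFactors.card := by
    apply card_le_card
    intro p hp
    rw [mem_filter] at hp
    exact Nat.mem_primeFactors.2 ⟨(mem_PS.1 hp.1).2, hp.2, hR⟩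
  have e3 := card_pf_le hR
  have e4 : (((PS z y).filter (fun p => p ∣ R)).card : ℝ) ≤ 2 * Real.log R := by
    have : (((PS z y).filter (fun p => p ∣ R)).card : ℝ) ≤ R.primeFactors.card := by
      exact_mod_cast e2
    linarith
  exact e1.trans (mul_le_mul_of_nonneg_right e4 (by positivity))

lemma caseB (hB : Bw g e c z C) (hz : c + Fintype.card ι ≤ z) (hz2 : 2 ^ Fintype.card ι ≤ z)
    (S : Finset ι) (hS : ∀ i ∈ S, ∀ j ∈ S, L i j = false) (A : ℕ) {K ep Gb : ℝ} (hK0 : 0 ≤ K)
    (hep : 0 < ep) (hGb : 0 ≤ Gb) (hzA : 16 * (Gb * (Fintype.card ι * A)) ≤ z * ep)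
    {m gp : ℕ → ℝ} {Cm : ℝ} {TS : Finset ι} (hTS : TS ⊆ S) (hm0 : ∀ p, 0 ≤ m p)
    (hgp : ∀ p, p.Prime → z < p → 0 ≤ gp p ∧ gp p ≤ Gb / (p : ℝ))
    (hm1 : ∀ y : ℕ, z < y → ∑ p ∈ PS z y, m p ≤ K * Real.log (Real.log y) + Cm)
    (hg1 : ∀ y : ℕ, z < y → |∑ p ∈ PS z y, gp p - ep * Real.log (Real.log y)| ≤ Cm)
    (hm2 : ∀ y : ℕ, z < y → ∀ e : ι → ℕ, (∀ b, e b ∈ (PP z y).divisors) → (∀ b ∈ S, e b = 1) →
      ∀ p ∈ PS z y, ¬ p ∣ ∏ b, e b → ∑ i ∈ S, g i p * XX L i e p ≤ m p ∧ ∀ i0 ∈ TS,
        ∑ i ∈ S, g i p * XX L i e p ≤ m p - gp p * (1 - XX L i0 e p))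
    (hlk : ∀ j, j ∉ S → ∃ i ∈ TS, L i j ≠ L j i) {n y0 : ℕ}
    (hX : ∀ y, y0 ≤ y → z < y → ∀ t,
      (Ex gp ep z y (VV A (Real.log y) ^ Fintype.card ι) t).card ≤ n) :
    ∃ C' : ℝ, ∀ y, z < y →
      |∑ d ∈ Fintype.piFinset (tS S z y (VV A (Real.log y))), HG g L d| ≤
        C' * (Real.log y) ^ K := by
  classical
  have hC0 : 0 ≤ C := zero_le_one.trans hB.C1
  have hz0 : 0 < z := by have := hB.z2; omega
  obtain ⟨C1, hC1, h1⟩ := log_VV_pow_le A (Fintype.card ι) (show 0 < ep / 4 by linarith)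
  set Cx : ℝ := 2 * Cm + 8 * (Fintype.card ι * Gb) with hCx
  refine ⟨(C * Real.log (max y0 3)) ^ Fintype.card ι +
    C ^ Fintype.card ι * C1 * Real.exp Cx +
    (∏ i : ι, ((2 * n + 1 : ℕ) : ℝ)) * Real.exp Cm, fun y hy => ?_⟩
  have hly := one_le_log hB.z2 hy
  have hly0 : 0 < Real.log y := by linarith
  have hlK : (1 : ℝ) ≤ (Real.log y) ^ K := Real.one_le_rpow hly hK0
  have hlm' : 0 ≤ Real.log (max (y0 : ℝ) 3) := Real.log_nonneg (le_max_of_le_right (by norm_num))
  have ha0 : 0 ≤ (C * Real.log (max (y0 : ℝ) 3)) ^ Fintype.card ι := by positivity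
  have hb0 : 0 ≤ C ^ Fintype.card ι * C1 * Real.exp Cx := by positivity
  have hc0 : 0 ≤ (∏ i : ι, ((2 * n + 1 : ℕ) : ℝ)) * Real.exp Cm := by positivity
  rcases Nat.lt_or_ge y y0 with hyy | hyy
  · -- the small values
    have e1 : |∑ d ∈ Fintype.piFinset (tS S z y (VV A (Real.log y))), HG g L d| ≤
        (C * Real.log (max (y0 : ℝ) 3)) ^ Fintype.card ι := by
      refine (Pool.Agent.L0h5.AG.triv _ _ _).trans ?_
      calc ∏ i, ∑ m ∈ tS S z y (VV A (Real.log y)) i, ah g i m
          ≤ ∏ i : ι, (C * Real.log (max (y0 : ℝ) 3)) := by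
            refine prod_le_prod (fun i _ => sum_nonneg fun m _ => ah_nonneg _ _ _) fun i _ => ?_
            have hsub : tS S z y (VV A (Real.log y)) i ⊆ (PP z y).divisors := by
              unfold tS sml
              split_ifs
              · exact subset_rfl
              · exact filter_subset _ _
            refine (sum_le_sum_of_subset_of_nonneg hsub fun m _ _ => ah_nonneg _ _ _).trans
              ((hB.F0 i y hy).trans (mul_le_mul_of_nonneg_left ?_ hC0))
            refine Real.log_le_log (by exact_mod_cast (by omega : 0 < y)) ?_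
            exact le_max_of_le_left (by exact_mod_cast hyy.le)
        _ = _ := by rw [prod_const, card_univ]
    calc _ ≤ _ := e1
      _ ≤ (C * Real.log (max (y0 : ℝ) 3)) ^ Fintype.card ι * (Real.log y) ^ K :=
          le_mul_of_one_le_right ha0 hlK
      _ ≤ _ := mul_le_mul_of_nonneg_right (by linarith) (by linarith)
  set l := Real.log y with hl
  set V := VV A l with hV
  have hV3 : 3 ≤ V := three_le_VV A l
  have hll : 0 ≤ Real.log l := Real.log_nonneg hly
  rw [sum_split S]
  refine (abs_sum_le_sum_abs _ _).trans ?_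
  set sm := Fintype.piFinset (tE S (tS S z y V)) with hsm
  set F : (ι → ℕ) → ℝ := fun d => |∑ f ∈ Fintype.piFinset (tF S (tS S z y V)),
    HG g L (fun b => d b * f b)| with hF
  set W : (ι → ℕ) → ℝ := fun d => ∏ b ∈ univ \ S, |gg g b (d b)| with hW
  have hW0 : ∀ d, 0 ≤ W d := fun d => prod_nonneg fun b _ => abs_nonneg _
  set Gd : (ι → ℕ) → Prop := fun d => ∃ i ∈ TS,
    ∀ t, ∑ p ∈ PS z y, gp p * ps (lk L i d) t p ≤ ep / 2 * Real.log l with hGd
  set Cp : (ι → ℕ) → Prop := fun d => ∀ i j, i ≠ j → (d i).Coprime (d j) with hCp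
  have hsplit : ∑ d ∈ sm, F d ≤ ∑ d ∈ sm.filter Gd, F d +
      ∑ d ∈ (sm.filter (fun d => ¬ Gd d)).filter Cp, F d := by
    rw [← sum_filter_add_sum_filter_not sm Gd]
    refine add_le_add le_rfl ?_
    rw [← sum_filter_add_sum_filter_not (sm.filter (fun d => ¬ Gd d)) Cp]
    have : ∑ d ∈ (sm.filter (fun d => ¬ Gd d)).filter (fun d => ¬ Cp d), F d = 0 := by
      refine sum_eq_zero fun d hd => ?_
      rw [mem_filter, mem_filter] at hd
      obtain ⟨⟨hd1, _⟩, hd2⟩ := hd
      rw [hF]
      simp only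
      rw [sum_eq_zero, abs_zero]
      intro f _
      unfold HG
      rw [if_neg]
      intro h
      apply hd2
      intro a b hab
      exact Nat.Coprime.coprime_mul_right (Nat.Coprime.coprime_mul_right_right (h a b hab))
    rw [this, add_zero]
  have hsumW : ∑ d ∈ sm, W d ≤ C ^ Fintype.card ι * (Real.log V) ^ Fintype.card ι :=
    sum_small hB S (V := V) hy hV3
  -- the good tuples
  have hgood : ∀ d ∈ sm.filter Gd, F d ≤ W d * Real.exp ((K - ep / 4) * Real.log l + Cx) := by
    intro d hd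
    rw [mem_filter] at hd
    obtain ⟨hd0, i0, hi0, hgi⟩ := hd
    obtain ⟨hd1, hd2, hd3⟩ := mem_tES hd0
    obtain ⟨t, ht⟩ := XX_char L i0 d (fun b => dv_odd hB.z2 (hd2 b))
    have hR0 : ∏ b, d b ≠ 0 := prod_ne_zero_iff.2 fun b _ => dv_ne_zero (hd2 b)
    have hch : ∀ p ∈ PS z y, ¬ p ∣ ∏ b, d b → XX L i0 d p = ps (lk L i0 d) t p := by
      intro p hp hpd
      have hpp := (mem_PS.1 hp).2
      have hpz := (mem_PS.1 hp).1.1
      refine ht p (hpp.odd_of_ne_two (by have := hB.z2; omega)) fun b _ => ?_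
      rw [hpp.coprime_iff_not_dvd]
      exact fun h => hpd (h.trans (dvd_prod_of_mem _ (mem_univ b)))
    set r := lk L i0 d with hr
    set R := ∏ b, d b with hRd
    refine inner_le hB hz S hS (tS_mem) hd1 hd2 (a := fun p => m p - gp p * (1 - ps r t p))
      (fun p hp hpd => ?_) ?_
    · have h3 := (hm2 y hy d hd2 hd1 p hp hpd).2 i0 hi0
      rwa [hch p hp hpd] at h3
    · have h3 := hg1 y hy
      have h4 := hm1 y hy
      have h5 := hgi t
      have h6 : ∑ p ∈ (PS z y).filter (fun p => ¬ p ∣ R), (m p - gp p * (1 - ps r t p)) ≤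
          ∑ p ∈ PS z y, m p - ∑ p ∈ PS z y, gp p + ∑ p ∈ PS z y, gp p * ps r t p +
            2 * ∑ p ∈ (PS z y).filter (fun p => p ∣ R), gp p := by
        have e1 : ∑ p ∈ (PS z y).filter (fun p => ¬ p ∣ R), (m p - gp p * (1 - ps r t p)) =
            ∑ p ∈ PS z y, (m p - gp p * (1 - ps r t p)) -
              ∑ p ∈ (PS z y).filter (fun p => p ∣ R), (m p - gp p * (1 - ps r t p)) := by
          rw [← sum_filter_add_sum_filter_not (PS z y) (fun p => p ∣ R)]
          ring
        have e2 : ∑ p ∈ PS z y, (m p - gp p * (1 - ps r t p)) = ∑ p ∈ PS z y, m p -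
            ∑ p ∈ PS z y, gp p + ∑ p ∈ PS z y, gp p * ps r t p := by
          rw [← sum_sub_distrib, ← sum_add_distrib]
          refine sum_congr rfl fun p _ => ?_
          ring
        have e3 : -(2 * ∑ p ∈ (PS z y).filter (fun p => p ∣ R), gp p) ≤
            ∑ p ∈ (PS z y).filter (fun p => p ∣ R), (m p - gp p * (1 - ps r t p)) := by
          rw [mul_sum, ← sum_neg_distrib]
          refine sum_le_sum fun p hp => ?_
          have hp' := mem_PS.1 (mem_filter.1 hp).1
          have a1 := (hgp p hp'.2 hp'.1.1).1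
          have a2 := abs_le.1 (abs_ps r t p)
          have a3 := hm0 p
          nlinarith [mul_le_mul_of_nonneg_left a2.1 a1, mul_le_mul_of_nonneg_left a2.2 a1]
        rw [e1, e2]
        linarith
      have h7 := sum_dvd_le (y := y) hGb hz0 hR0 hgp
      have hlogR : Real.log R ≤ Fintype.card ι * (2 + A * Real.log l) := by
        have e1 : R ≤ V ^ Fintype.card ι := by
          calc R = ∏ b, d b := rfl
            _ ≤ ∏ _b : ι, V := prod_le_prod' fun b _ => by
                by_cases hb : b ∈ S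
                · rw [hd1 b hb]
                  omega
                · exact hd3 b hb
            _ = _ := by rw [prod_const, card_univ]
        have e2 : Real.log R ≤ Real.log ((V ^ Fintype.card ι : ℕ) : ℝ) :=
          Real.log_le_log (by exact_mod_cast Nat.pos_of_ne_zero hR0) (by exact_mod_cast e1)
        refine e2.trans ?_
        push_cast
        rw [Real.log_pow]
        exact mul_le_mul_of_nonneg_left (log_VV_lin A hly) (Nat.cast_nonneg _)
      have hzr : (1 : ℝ) ≤ z := by exact_mod_cast hz0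
      have h8 : 2 * (2 * Real.log R * (Gb / z)) ≤ 8 * (Fintype.card ι * Gb) +
          ep / 4 * Real.log l := by
        have e1 : 2 * (2 * Real.log R * (Gb / z)) ≤
            2 * (2 * (Fintype.card ι * (2 + A * Real.log l)) * (Gb / z)) := by
          have : 0 ≤ Gb / (z : ℝ) := by positivity
          nlinarith
        refine e1.trans ?_
        have e2 : 2 * (2 * (Fintype.card ι * (2 + A * Real.log l)) * (Gb / z)) =
            (8 * (Fintype.card ι * Gb)) / z +
              (4 * (Gb * (Fintype.card ι * A)) / z) * Real.log l := by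
          field_simp
          ring
        rw [e2]
        refine add_le_add ?_ (mul_le_mul_of_nonneg_right ?_ hll)
        · exact div_le_self (by positivity) hzr
        · rw [div_le_div_iff₀ (by linarith) (by norm_num)]
          linarith
      have h9 := (abs_le.1 h3).1
      rw [hCx]
      have h10 : (K - ep / 4) * Real.log l = K * Real.log l - ep * Real.log l +
          ep / 2 * Real.log l + ep / 4 * Real.log l := by ring
      linarith
  have hgoodsum : ∑ d ∈ sm.filter Gd, F d ≤
      (C ^ Fintype.card ι * C1 * Real.exp Cx) * l ^ K := by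
    refine (sum_le_sum hgood).trans ?_
    rw [← sum_mul]
    have e2 : ∑ d ∈ sm.filter Gd, W d ≤ C ^ Fintype.card ι * (Real.log V) ^ Fintype.card ι :=
      (sum_le_sum_of_subset_of_nonneg (filter_subset _ _) fun d _ _ => hW0 d).trans hsumW
    have e3 := h1 l hly
    have e4 : Real.exp ((K - ep / 4) * Real.log l + Cx) = l ^ (K - ep / 4) * Real.exp Cx := by
      rw [Real.exp_add, Real.rpow_def_of_pos hly0, mul_comm (K - ep / 4)]
    have e5 : l ^ (K - ep / 4) * l ^ (ep / 4) = l ^ K := by
      rw [← Real.rpow_add hly0]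
      congr 1
      ring
    rw [e4]
    calc _ ≤ (C ^ Fintype.card ι * (Real.log V) ^ Fintype.card ι) *
          (l ^ (K - ep / 4) * Real.exp Cx) := mul_le_mul_of_nonneg_right e2 (by positivity)
      _ ≤ (C ^ Fintype.card ι * (C1 * l ^ (ep / 4))) * (l ^ (K - ep / 4) * Real.exp Cx) := by
          refine mul_le_mul_of_nonneg_right (mul_le_mul_of_nonneg_left e3 (by positivity))
            (by positivity)
      _ = (C ^ Fintype.card ι * C1 * Real.exp Cx) * (l ^ (K - ep / 4) * l ^ (ep / 4)) := by ring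
      _ = _ := by rw [e5]
  -- the bad tuples
  set Bd := (sm.filter (fun d => ¬ Gd d)).filter Cp with hBd
  have hbad : ∀ d ∈ Bd, F d ≤ W d * (Real.exp Cm * l ^ K) := by
    intro d hd
    rw [hBd, mem_filter, mem_filter] at hd
    obtain ⟨hd1, hd2, hd3⟩ := mem_tES hd.1.1
    have h3 : F d ≤ W d * Real.exp (K * Real.log l + Cm) := by
      refine inner_le hB hz S hS (tS_mem) hd1 hd2 (a := m)
        (fun p hp hpd => (hm2 y hy d hd2 hd1 p hp hpd).1) ?_
      refine le_trans ?_ (hm1 y hy)
      exact sum_le_sum_of_subset_of_nonneg (filter_subset _ _) fun p _ _ => hm0 p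
    refine h3.trans (le_of_eq ?_)
    rw [Real.exp_add, Real.rpow_def_of_pos hly0, mul_comm K, mul_comm (Real.exp Cm)]
  have hbadW : ∑ d ∈ Bd, W d ≤ ∏ i : ι, ((2 * n + 1 : ℕ) : ℝ) := by
    set E : ι → Finset ℕ := fun i => if i ∈ TS then
      Ex gp ep z y (V ^ Fintype.card ι) true ∪ Ex gp ep z y (V ^ Fintype.card ι) false
      else {1} with hE
    have hcop : ∀ d ∈ Bd, ((∀ b ∈ S, d b = 1) ∧ (∀ b, d b ∈ (PP z y).divisors) ∧
        (∀ b, b ∉ S → d b ≤ V)) ∧ Cp d ∧ ¬ Gd d := by
      intro d hd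
      rw [hBd, mem_filter, mem_filter] at hd
      exact ⟨mem_tES hd.1.1, hd.2, hd.1.2⟩
    have hR : ∀ d ∈ Bd, ∏ b, d b ∣ PP z y := by
      intro d hd
      obtain ⟨⟨-, h1, -⟩, h2, -⟩ := hcop d hd
      refine Finset.prod_dvd_of_isRelPrime (fun i _ j _ hij => ?_) fun b _ =>
        Nat.dvd_of_mem_divisors (h1 b)
      exact Nat.coprime_iff_isRelPrime.1 (h2 i j hij)
    have h2 : ∀ d ∈ Bd, ∃ r : ι → ℕ, (∀ i, r i ∈ E i) ∧
        (∏ b, d b).primeFactors = univ.biUnion (fun i => (r i).primeFactors) := by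
      intro d hd
      obtain ⟨⟨hone, hd1, hdV⟩, hd2, hng⟩ := hcop d hd
      have hle : ∀ b, 0 < d b ∧ d b ≤ V := by
        intro b
        refine ⟨dv_pos (hd1 b), ?_⟩
        by_cases hb : b ∈ S
        · rw [hone b hb]
          omega
        · exact hdV b hb
      have hlkle : ∀ i, 1 ≤ lk L i d ∧ lk L i d ≤ V ^ Fintype.card ι := by
        intro i
        unfold lk
        constructor
        · exact prod_pos fun b _ => (hle b).1
        · calc ∏ b ∈ (univ.erase i).filter (fun b => L i b ≠ L b i), d b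
              ≤ ∏ b ∈ (univ.erase i).filter (fun b => L i b ≠ L b i), V :=
                prod_le_prod' fun b _ => (hle b).2
            _ = V ^ ((univ.erase i).filter (fun b => L i b ≠ L b i)).card := by rw [prod_const]
            _ ≤ V ^ Fintype.card ι := Nat.pow_le_pow_right (by omega)
                ((card_le_card (subset_univ _)).trans (le_of_eq card_univ))
      have hlksq : ∀ i, Squarefree (lk L i d) := by
        intro i
        unfold lk
        exact squarefree_prod _ _ (fun b _ => dv_squarefree (hd1 b))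
          fun a _ b _ hab => hd2 a b hab
      refine ⟨fun i => if i ∈ TS then lk L i d else 1, fun i => ?_, ?_⟩
      · rw [hE]
        simp only
        by_cases hi : i ∈ TS
        · rw [if_pos hi, if_pos hi]
          have hng' : ∃ t, ep / 2 * Real.log l < ∑ p ∈ PS z y, gp p * ps (lk L i d) t p := by
            by_contra hcon
            push Not at hcon
            exact hng ⟨i, hi, hcon⟩
          obtain ⟨t, ht⟩ := hng'
          have hmem : lk L i d ∈ Ex gp ep z y (V ^ Fintype.card ι) t :=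
            mem_Ex.2 ⟨hlkle i, hlksq i, fun p hp hpd => lk_primes hd1 hp hpd, ht⟩
          rw [mem_union]
          cases t
          · exact Or.inr hmem
          · exact Or.inl hmem
        · rw [if_neg hi, if_neg hi, mem_singleton]
      · ext p
        rw [mem_biUnion, Nat.mem_primeFactors]
        have hne : ∏ b, d b ≠ 0 := prod_ne_zero_iff.2 fun b _ => dv_ne_zero (hd1 b)
        constructor
        · rintro ⟨hp, hpd, -⟩
          obtain ⟨b, -, hb⟩ := (hp.prime.dvd_finsetProd_iff _).1 hpd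
          have hbS : b ∉ S := by
            intro h
            rw [hone b h] at hb
            exact hp.one_lt.ne' (Nat.dvd_one.1 hb)
          obtain ⟨i, hi, hib⟩ := hlk b hbS
          refine ⟨i, mem_univ i, ?_⟩
          simp only [if_pos hi]
          rw [Nat.mem_primeFactors]
          refine ⟨hp, ?_, by have := (hlkle i).1; omega⟩
          unfold lk
          refine hb.trans (dvd_prod_of_mem _ ?_)
          rw [mem_filter, mem_erase]
          exact ⟨⟨by rintro rfl; exact hbS (hTS hi), mem_univ b⟩, hib⟩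
        · rintro ⟨i, -, hi⟩
          by_cases hi2 : i ∈ TS
          · simp only [if_pos hi2] at hi
            rw [Nat.mem_primeFactors] at hi
            refine ⟨hi.1, hi.2.1.trans ?_, hne⟩
            unfold lk
            exact prod_dvd_prod_of_subset _ _ _ (subset_univ _)
          · simp [hi2] at hi
    have e1 : ∑ d ∈ Bd, W d ≤ ∑ d ∈ Bd, 1 / ((∏ b, d b : ℕ) : ℝ) := by
      refine sum_le_sum fun d hd => ?_
      obtain ⟨⟨hone, hd1, -⟩, -, -⟩ := hcop d hd
      have e2 : 1 / ((∏ b, d b : ℕ) : ℝ) = ∏ b ∈ univ \ S, 1 / (d b : ℝ) := by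
        have e3 : ∏ b, 1 / (d b : ℝ) = 1 / ((∏ b, d b : ℕ) : ℝ) := by
          rw [Nat.cast_prod, prod_div_distrib, prod_const_one]
        rw [← e3]
        symm
        refine prod_subset (subset_univ (univ \ S)) fun b _ hb => ?_
        rw [mem_sdiff, not_and, not_not] at hb
        rw [hone b (hb (mem_univ b))]
        simp
      rw [e2]
      exact prod_le_prod (fun b _ => abs_nonneg _) fun b _ => abs_gg_le hB b (hd1 b)
    refine (e1.trans (bad_sum hz2 Bd E hR h2)).trans ?_
    refine prod_le_prod (fun i _ => Nat.cast_nonneg _) fun i _ => ?_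
    have : (E i).card ≤ 2 * n + 1 := by
      rw [hE]
      simp only
      by_cases hi : i ∈ TS
      · rw [if_pos hi]
        have e2 : (Ex gp ep z y (V ^ Fintype.card ι) true).card ≤ n := hX y hyy hy true
        have e3 : (Ex gp ep z y (V ^ Fintype.card ι) false).card ≤ n := hX y hyy hy false
        exact (card_union_le _ _).trans (by omega)
      · rw [if_neg hi, card_singleton]
        omega
    exact_mod_cast this
  have hbadsum : ∑ d ∈ Bd, F d ≤ (∏ i : ι, ((2 * n + 1 : ℕ) : ℝ)) * Real.exp Cm * l ^ K := by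
    refine (sum_le_sum hbad).trans ?_
    rw [← sum_mul]
    refine (mul_le_mul_of_nonneg_right hbadW (by positivity)).trans (le_of_eq ?_)
    ring
  have hfin := hsplit.trans (add_le_add hgoodsum hbadsum)
  have h0K : 0 ≤ (C * Real.log (max (y0 : ℝ) 3)) ^ Fintype.card ι * l ^ K := by positivity
  refine hfin.trans ?_
  rw [add_mul, add_mul]
  linarith

end Pool.Agent.L0h5.AH
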