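import Pool.Agent.L0h5.AH.B3

/-!
# The refined abstract bound
-/

set_option autoImplicit false

namespace Pool.Agent.L0h5.AH

open Finset Pool.Agent.W262.RK Pool.Agent.W262.RK.AT Pool.Agent.L0h5.AG

variable {ι : Type} [Fintype ι] [DecidableEq ι]

lemma patternsS (S : Finset ι) (z y : ℕ) {V Y : ℕ} (_hV : 1 ≤ V) (F : (ι → ℕ) → ℝ) :
    ∑ d ∈ Fintype.piFinset (tS S z y V), F d =
      ∑ π ∈ univ.filter (fun π : ι → Fin 4 => ∀ b, b ∉ S → π b = 0 ∨ π b = 1),
        ∑ d ∈ Fintype.piFinset (fun k => cell z y V Y (π k)), F d := by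
  classical
  have hcl : ∀ m, m ≤ V ↔ cl V Y m = 0 ∨ cl V Y m = 1 := by
    intro m
    unfold cl
    constructor
    · intro h
      by_cases h1 : m ≤ 1
      · left
        rw [if_pos h1]
      · right
        rw [if_neg h1, if_pos h]
    · intro h
      by_contra hcon
      have h1 : ¬ m ≤ 1 := by omega
      rw [if_neg h1, if_neg hcon] at h
      split_ifs at h
      · rcases h with h | h <;> exact absurd h (by decide)
      · rcases h with h | h <;> exact absurd h (by decide)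
  rw [← sum_fiberwise_of_maps_to (s := Fintype.piFinset (tS S z y V))
    (t := univ.filter (fun π : ι → Fin 4 => ∀ b, b ∉ S → π b = 0 ∨ π b = 1))
    (g := fun d k => cl V Y (d k))]
  · apply sum_congr rfl
    intro π hπ
    have hπ' := (mem_filter.1 hπ).2
    apply sum_congr _ (fun _ _ => rfl)
    ext d
    simp only [mem_filter, Fintype.mem_piFinset, cell]
    constructor
    · rintro ⟨h1, h2⟩ k
      refine ⟨?_, congrFun h2 k⟩
      have := h1 k
      unfold tS sml at this
      split_ifs at this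
      · exact this
      · exact (mem_filter.1 this).1
    · intro h
      refine ⟨fun k => ?_, funext fun k => (h k).2⟩
      unfold tS sml
      split_ifs with hk
      · exact (h k).1
      · rw [mem_filter]
        refine ⟨(h k).1, (hcl _).2 ?_⟩
        rw [(h k).2]
        exact hπ' k hk
  · intro d hd
    rw [mem_filter]
    refine ⟨mem_univ _, fun b hb => ?_⟩
    have := Fintype.mem_piFinset.1 hd b
    rw [tS_not b hb] at this
    exact (hcl _).1 (mem_filter.1 this).2

variable {g : ι → ℕ → ℝ} {e : ι → ℝ} {L : ι → ι → Bool} {c z : ℕ} {C : ℝ}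

/-- the sum over a pattern -/
noncomputable def Tp (g : ι → ℕ → ℝ) (L : ι → ι → Bool) (z A : ℕ) (y : ℕ) (π : ι → Fin 4) : ℝ :=
  ∑ d ∈ Fintype.piFinset (fun b => cell z y (VV A (Real.log y)) (YY A (Real.log y)) (π b)),
    HG g L d

/-- the pattern is good -/
def Bp (g : ι → ℕ → ℝ) (L : ι → ι → Bool) (z A : ℕ) (K : ℝ) (π : ι → Fin 4) : Prop :=
  ∃ C' : ℝ, ∀ y : ℕ, z < y → |Tp g L z A y π| ≤ C' * (Real.log y) ^ K

/-- the large variables -/
def Ul (π : ι → Fin 4) : Finset ι := univ.filter (fun k => π k = 2)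

open Classical in
/-- the special patterns -/
noncomputable def Spc (e : ι → ℝ) (K : ℝ) (S : Finset ι) : Finset (ι → Fin 4) :=
  univ.filter (fun π => (∀ k, π k ≠ 3) ∧ Ul π ⊆ S ∧ K ≤ ∑ k ∈ Ul π, e k)

/-- every pattern is good or special -/
lemma pat2 (hB : Bw g e c z C) {C2 : ℝ} {E2 : ℕ} (hC2 : 0 ≤ C2) (h2 : BW C2 E2)
    (hL : ∀ i, L i i = false) {K : ℝ} (hK0 : 0 ≤ K) (Sg : Finset (Finset ι))
    (hK : ∀ U : Finset ι, (∀ i ∈ U, ∀ j ∈ U, L i j = L j i) →
      ∑ i ∈ U, e i ≤ K ∨ ∃ S ∈ Sg, U ⊆ S)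
    (hz : 2 ^ Fintype.card ι ≤ z) {n y0 : ℕ}
    (hX : XB g e z (6 * (Fintype.card ι + 2 * E2)) n y0) (π : ι → Fin 4)
    (hsp : ∀ S ∈ Sg, π ∉ Spc e K S) : Bp g L z (6 * (Fintype.card ι + 2 * E2)) K π := by
  classical
  unfold Bp Tp
  by_cases h3 : ∃ k, π k = 3
  · obtain ⟨k, hk⟩ := h3
    exact tail_case hB _ hK0 π hk
  push Not at h3
  by_cases hl : ∃ i j, π i = 2 ∧ π j = 2 ∧ L i j ≠ L j i
  · obtain ⟨i, j, hi, hj, hij⟩ := hl
    exact link_case hB hC2 h2 hL le_rfl hK0 π hi hj hij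
  push Not at hl
  rcases lt_or_ge (∑ k ∈ Ul π, e k) K with hlt | hge
  · exact triv_case hB _ π h3 hlt
  have hns : ∀ S ∈ Sg, ¬ Ul π ⊆ S := by
    intro S hS hsub
    apply hsp S hS
    unfold Spc
    rw [mem_filter]
    exact ⟨mem_univ _, h3, hsub, hge⟩
  have hun : ∀ i ∈ Ul π, ∀ j ∈ Ul π, L i j = L j i := by
    intro i hi j hj
    exact hl i j (mem_filter.1 hi).2 (mem_filter.1 hj).2
  have hS : ∑ k ∈ Ul π, e k ≤ K := by
    rcases hK (Ul π) hun with h | ⟨S, hS, hsub⟩
    · exact h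
    · exact absurd hsub (hns S hS)
  have heq : ∑ k ∈ Ul π, e k = K := le_antisymm hS hge
  by_cases h1 : ∃ j, π j = 1
  · refine max_case hB hL _ hK0 π h3 (fun i j hi hj => hl i j hi hj) (fun j hj => ?_) hS hz hX
    by_contra hcon
    push Not at hcon
    have hjn : j ∉ Ul π := by
      unfold Ul
      rw [mem_filter, hj]
      rintro ⟨-, h⟩
      exact absurd h (by decide)
    have := hK (insert j (Ul π)) (by
      intro a ha b hb
      rw [mem_insert] at ha hb
      rcases ha with rfl | ha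
      · rcases hb with rfl | hb
        · rfl
        · exact (hcon b (mem_filter.1 hb).2).symm
      · rcases hb with rfl | hb
        · exact hcon a (mem_filter.1 ha).2
        · exact hun a ha b hb)
    rcases this with h | ⟨S, hS, hsub⟩
    · rw [sum_insert hjn, heq] at h
      have := hB.e0 j
      linarith
    · exact hns S hS ((subset_insert _ _).trans hsub)
  · push Not at h1
    refine diag_case hB _ π (fun k => ?_) hS
    have a1 := h1 k
    have a3 := h3 k
    revert a1 a3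
    generalize π k = r
    revert r
    decide

/-- the special patterns together -/
lemma spec (hB : Bw g e c z C) {A : ℕ} {K : ℝ} (hK0 : 0 ≤ K) (S : Finset ι)
    (hT : ∃ C' : ℝ, ∀ y, z < y →
      |∑ d ∈ Fintype.piFinset (tS S z y (VV A (Real.log y))), HG g L d| ≤
        C' * (Real.log y) ^ K) :
    ∃ C' : ℝ, ∀ y : ℕ, z < y → |∑ π ∈ Spc e K S, Tp g L z A y π| ≤ C' * (Real.log y) ^ K := by
  classical
  obtain ⟨C0, hC0⟩ := hT
  set As : Finset (ι → Fin 4) :=
    univ.filter (fun π : ι → Fin 4 => ∀ b, b ∉ S → π b = 0 ∨ π b = 1) with hAs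
  have hsub : Spc e K S ⊆ As := by
    intro π hπ
    unfold Spc at hπ
    rw [mem_filter] at hπ
    obtain ⟨-, h3, h4, -⟩ := hπ
    rw [hAs, mem_filter]
    refine ⟨mem_univ _, fun b hb => ?_⟩
    have h5 : π b ≠ 2 := fun h => hb (h4 (mem_filter.2 ⟨mem_univ _, h⟩))
    have h6 := h3 b
    revert h5 h6
    generalize π b = r
    revert r
    decide
  have hrest : ∀ π ∈ As \ Spc e K S, Bp g L z A K π := by
    intro π hπ
    rw [mem_sdiff, hAs, mem_filter] at hπ
    obtain ⟨⟨-, h1⟩, h2⟩ := hπ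
    unfold Bp Tp
    by_cases h3 : ∃ k, π k = 3
    · obtain ⟨k, hk⟩ := h3
      exact tail_case hB _ hK0 π hk
    push Not at h3
    have h4 : Ul π ⊆ S := by
      intro b hb
      by_contra hbS
      have h5 := (mem_filter.1 hb).2
      rcases h1 b hbS with h | h
      · rw [h] at h5
        exact absurd h5 (by decide)
      · rw [h] at h5
        exact absurd h5 (by decide)
    refine triv_case hB _ π h3 ?_
    by_contra hcon
    apply h2
    unfold Spc
    rw [mem_filter]
    exact ⟨mem_univ _, h3, h4, not_lt.1 hcon⟩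
  choose! Cπ hCπ using hrest
  refine ⟨C0 + ∑ π ∈ As \ Spc e K S, Cπ π, fun y hy => ?_⟩
  have h1 := patternsS S z y (V := VV A (Real.log y)) (Y := YY A (Real.log y))
    (by have := three_le_VV A (Real.log y); omega) (HG g L)
  have h2 : ∑ π ∈ Spc e K S, Tp g L z A y π =
      ∑ d ∈ Fintype.piFinset (tS S z y (VV A (Real.log y))), HG g L d -
        ∑ π ∈ As \ Spc e K S, Tp g L z A y π := by
    rw [h1, ← hAs]
    have h3 := sum_sdiff (f := fun π => Tp g L z A y π) hsub
    have h4 : ∑ π ∈ As, ∑ d ∈ Fintype.piFinset (fun k => cell z y (VV A (Real.log y))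
        (YY A (Real.log y)) (π k)), HG g L d = ∑ π ∈ As, Tp g L z A y π := rfl
    rw [h4]
    linarith
  rw [h2, add_mul, sum_mul]
  refine (abs_sub _ _).trans (add_le_add (hC0 y hy) ?_)
  exact (abs_sum_le_sum_abs _ _).trans (sum_le_sum fun π hπ => hCπ π hπ y hy)

/-- **The refined abstract bound with general weights.** -/
theorem ag2 (ι : Type) [Fintype ι] [DecidableEq ι] (e : ι → ℝ) (L : ι → ι → Bool) (c : ℕ) (K : ℝ)
    (ep Gb : ℝ) (hep : 0 < ep) (hGb : 1 ≤ Gb) (hK0 : 0 ≤ K) (Sg : Finset (Finset ι))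
    (he : ∀ i, 0 < e i) (hL : ∀ i, L i i = false)
    (hK : ∀ U : Finset ι, (∀ i ∈ U, ∀ j ∈ U, L i j = L j i) →
      ∑ i ∈ U, e i ≤ K ∨ ∃ S ∈ Sg, U ⊆ S)
    (hS0 : ∀ S ∈ Sg, ∀ i ∈ S, ∀ j ∈ S, L i j = false)
    (hSS : ∀ S ∈ Sg, ∀ S' ∈ Sg, S ≠ S' → ∑ i ∈ S ∩ S', e i < K) :
    ∃ z0 : ℕ, ∀ z, z0 ≤ z → ∀ (g : ι → ℕ → ℝ) (Cg : ℝ),
      (∀ i p, p.Prime → z < p → |g i p| ≤ (1 / 2) / ((p : ℝ) - c)) →
      (∀ i (y : ℕ), z < y → ∑ p ∈ PS z y, |g i p| ≤ e i * Real.log (Real.log y) + Cg) →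
      (∀ S ∈ Sg, JtA g L S z K ∨ JtB g L S z K ep Gb) →
      ∃ C : ℝ, ∀ y, z < y →
        |∑ d ∈ Tup ι z y, (∏ i, gg g i (d i)) * Sym L (fun _ => 1) d| ≤ C * (Real.log y) ^ K := by
  classical
  obtain ⟨C2, E2, h2⟩ := Pool.Agent.W655.RK.blw_of (_root_.W37.RK.bl_of Pool.Agent.W505.RK.ls)
  obtain ⟨zF, hF⟩ := Pool.Agent.W655.RK.full (1 / 2) c (by norm_num) le_rfl
  set A := 6 * (Fintype.card ι + 2 * E2) with hA
  obtain ⟨zE, hzE⟩ : ∃ zE : ℕ, ∀ i, 128 * (Fintype.card ι * (A : ℝ)) ≤ zE * e i := by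
    choose zi hzi using fun i => exists_nat_ge (128 * (Fintype.card ι * (A : ℝ)) / e i)
    refine ⟨univ.sup zi, fun i => ?_⟩
    have h1 : (zi i : ℝ) ≤ (univ.sup zi : ℕ) := by exact_mod_cast le_sup (f := zi) (mem_univ i)
    have h3 := (hzi i).trans h1
    rwa [div_le_iff₀ (he i)] at h3
  obtain ⟨zG, hzG⟩ := exists_nat_ge (128 * (Gb * (Fintype.card ι * (A : ℝ))) / ep)
  rw [div_le_iff₀ hep] at hzG
  refine ⟨zF + zE + zG + 2 * c + 2 + 2 ^ Fintype.card ι + Fintype.card ι,
    fun z hz g Cg hg1 hg2 hJ => ?_⟩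
  have hpow : 0 < 2 ^ Fintype.card ι := by positivity
  obtain ⟨CF, hF1, hF2, hF3⟩ := hF z (by omega)
  have hz2 : 2 ≤ z := by omega
  have hzc : 2 * c + 2 ≤ z := by omega
  set C : ℝ := 1 + 2 * |CF| + Real.exp (Cg + 2) with hC
  have hCF : CF ≤ C := by
    have := le_abs_self CF
    have := abs_nonneg CF
    have := Real.exp_pos (Cg + 2)
    linarith
  have hle : ∀ i (y m : ℕ), m ∈ (PP z y).divisors → ah g i m ≤ gw (1 / 2) c m * hh m :=
    fun i y m hm => mul_le_mul_of_nonneg_right (abs_gg_le_gw hg1 i hm) (hh_nonneg _)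
  have hB : Bw g e c z C :=
    { z2 := hz2
      zc := hzc
      C1 := by
        have := abs_nonneg CF
        have := Real.exp_pos (Cg + 2)
        linarith
      g1 := hg1
      e0 := he
      F0 := fun i y hy => by
        have hly := one_le_log hz2 hy
        refine (sum_le_sum fun m hm => hle i y m hm).trans ((hF1 y hy).trans ?_)
        have h3 : (Real.log y) ^ (1 / 2 : ℝ) ≤ Real.log y := by
          calc (Real.log y) ^ (1 / 2 : ℝ) ≤ (Real.log y) ^ (1 : ℝ) :=
                Real.rpow_le_rpow_of_exponent_le hly (by norm_num)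
            _ = Real.log y := Real.rpow_one _
        have h4 : 0 ≤ (Real.log y) ^ (1 / 2 : ℝ) := by positivity
        have hC0 : 0 ≤ C := by
          have := abs_nonneg CF
          have := Real.exp_pos (Cg + 2)
          linarith
        exact (mul_le_mul_of_nonneg_right hCF h4).trans (mul_le_mul_of_nonneg_left h3 hC0)
      F1 := fun i y hy => by
        refine (f1_of hz2 hzc (hg1 i) (hg2 i) y hy).trans ?_
        refine mul_le_mul_of_nonneg_right ?_ (Real.rpow_nonneg (Real.log_natCast_nonneg y) _)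
        have := abs_nonneg CF
        linarith
      F2 := fun i y V hy hV => by
        refine (sum_le_sum fun m hm => hle i y m (mem_filter.1 hm).1).trans
          ((hF2 y V hy hV).trans ?_)
        have hC0 : 0 ≤ C := by
          have := abs_nonneg CF
          have := Real.exp_pos (Cg + 2)
          linarith
        have hlV : 1 / 4 ≤ Real.log V := by
          have h1 : Real.log 2 ≤ Real.log V :=
            Real.log_le_log (by norm_num) (by exact_mod_cast hV)
          have h2 := Real.log_two_gt_d9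
          linarith
        have h3 : (Real.log V) ^ (1 / 2 : ℝ) ≤ 2 * Real.log V := by
          rw [← Real.sqrt_eq_rpow, Real.sqrt_le_left (by linarith)]
          nlinarith
        have h4 : 0 ≤ (Real.log V) ^ (1 / 2 : ℝ) := by positivity
        have h5 : 0 ≤ Real.log V := by linarith
        have h6 := Real.exp_pos (Cg + 2)
        calc CF * (Real.log V) ^ (1 / 2 : ℝ) ≤ |CF| * (Real.log V) ^ (1 / 2 : ℝ) :=
              mul_le_mul_of_nonneg_right (le_abs_self _) h4
          _ ≤ |CF| * (2 * Real.log V) := mul_le_mul_of_nonneg_left h3 (abs_nonneg _)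
          _ = 2 * |CF| * Real.log V := by ring
          _ ≤ C * Real.log V := mul_le_mul_of_nonneg_right (by linarith) h5
      F3 := fun i y Y hy hY => by
        refine (sum_le_sum fun m hm => hle i y m (mem_filter.1 hm).1).trans
          ((hF3 y Y hy hY).trans ?_)
        apply mul_le_mul_of_nonneg_right _ (by positivity)
        exact mul_le_mul_of_nonneg_right hCF (Real.exp_pos _).le }
  have h2' : AT.BW |C2| E2 := fun V Y hV hVY a b ha hb ha' hb' =>
    (h2 V Y hV hVY a b ha hb ha' hb').trans (by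
      apply mul_le_mul_of_nonneg_right _ (by positivity)
      exact mul_le_mul_of_nonneg_right (le_abs_self C2)
        (pow_nonneg (Real.log_natCast_nonneg Y) _))
  -- the exceptional sets
  have hex : ∀ i, ∃ n y0 : ℕ, ∀ y, y0 ≤ y → z < y → ∀ t : Bool, ∀ S : Finset ℕ,
      (∀ r ∈ S, 1 ≤ r ∧ r ≤ VV A (Real.log y) ^ Fintype.card ι ∧ Squarefree r ∧
        (∀ p : ℕ, p.Prime → p ∣ r → z < p) ∧
        e i / 2 * Real.log (Real.log y) < ∑ p ∈ PS z y, g i p * ps r t p) → S.card ≤ n := by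
    intro i
    refine exc (g i) (e i) Cg (he i) z hz2 (fun p hp hpz => (hg1 i p hp hpz).trans ?_) (hg2 i)
      A (Fintype.card ι) ?_
    · have h3 : (2 * c + 3 : ℝ) ≤ p := by exact_mod_cast (by omega : 2 * c + 3 ≤ p)
      have hc0 : (0 : ℝ) ≤ c := Nat.cast_nonneg c
      rw [div_le_div_iff₀ (by linarith) (by linarith)]
      linarith
    · refine (hzE i).trans (mul_le_mul_of_nonneg_right ?_ (he i).le)
      exact_mod_cast (by omega : zE ≤ z)
  choose ni yi hni using hex
  have hX : XB g e z A (univ.sup ni) (univ.sup yi) := by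
    intro y hy hzy i t
    have h3 : yi i ≤ y := (le_sup (f := yi) (mem_univ i)).trans hy
    refine (hni i y h3 hzy t _ fun r hr => ?_).trans (le_sup (f := ni) (mem_univ i))
    obtain ⟨⟨h4, h5⟩, h6, h7, h8⟩ := mem_Ex.1 hr
    exact ⟨h4, h5, h6, h7, h8⟩
  -- the special sets
  have hGb0 : 0 < Gb := by linarith
  have hzG' : 128 * (Gb * (Fintype.card ι * (A : ℝ))) ≤ z * ep :=
    hzG.trans (mul_le_mul_of_nonneg_right (by exact_mod_cast (by omega : zG ≤ z)) hep.le)
  have hTS : ∀ S ∈ Sg, ∃ C' : ℝ, ∀ y : ℕ, z < y →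
      |∑ π ∈ Spc e K S, Tp g L z A y π| ≤ C' * (Real.log y) ^ K := by
    intro S hS
    refine spec (L := L) hB hK0 S ?_
    rcases hJ S hS with h | h
    · exact caseA hB (by omega) S (hS0 S hS) A h
    · obtain ⟨m, gp, Cm, TS, hTS, hm0, hgp, hm1, hgs, hm2, hlk⟩ := h
      have hexg : ∃ n y0 : ℕ, ∀ y, y0 ≤ y → z < y → ∀ t : Bool, ∀ S : Finset ℕ,
          (∀ r ∈ S, 1 ≤ r ∧ r ≤ VV A (Real.log y) ^ Fintype.card ι ∧ Squarefree r ∧
            (∀ p : ℕ, p.Prime → p ∣ r → z < p) ∧
            (ep / Gb) / 2 * Real.log (Real.log y) < ∑ p ∈ PS z y, (gp p / Gb) * ps r t p) →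
            S.card ≤ n := by
        refine exc (fun p => gp p / Gb) (ep / Gb) (|Cm| / Gb) (by positivity) z hz2
          (fun p hp hpz => ?_) (fun y hy => ?_) A (Fintype.card ι) ?_
        · obtain ⟨a1, a2⟩ := hgp p hp hpz
          rw [abs_of_nonneg (div_nonneg a1 hGb0.le), div_le_iff₀ hGb0]
          refine a2.trans (le_of_eq ?_)
          ring
        · have e1 : ∑ p ∈ PS z y, |gp p / Gb| = (∑ p ∈ PS z y, gp p) / Gb := by
            rw [sum_div]
            refine sum_congr rfl fun p hp => ?_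
            obtain ⟨a1, -⟩ := hgp p (mem_PS.1 hp).2 (mem_PS.1 hp).1.1
            exact abs_of_nonneg (div_nonneg a1 hGb0.le)
          rw [e1, div_mul_eq_mul_div, ← add_div]
          refine div_le_div_of_nonneg_right ?_ hGb0.le
          have h3 := (abs_le.1 (hgs y hy)).2
          have := le_abs_self Cm
          linarith
        · rw [← mul_div_assoc, le_div_iff₀ hGb0]
          refine le_trans (le_of_eq ?_) hzG'
          ring
      obtain ⟨n', y0', hn'⟩ := hexg
      refine caseB hB (by omega) (by omega) S (hS0 S hS) A hK0 hep hGb0.le (by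
          have : (0 : ℝ) ≤ Gb * (Fintype.card ι * (A : ℝ)) := by positivity
          linarith) hTS hm0 hgp hm1 hgs hm2 hlk
        (n := n') (y0 := y0') (fun y hy hzy t => ?_)
      refine hn' y hy hzy t _ fun r hr => ?_
      obtain ⟨⟨h4, h5⟩, h6, h7, h8⟩ := mem_Ex.1 hr
      refine ⟨h4, h5, h6, h7, ?_⟩
      have e1 : ∑ p ∈ PS z y, (gp p / Gb) * ps r t p = (∑ p ∈ PS z y, gp p * ps r t p) / Gb := by
        rw [sum_div]
        refine sum_congr rfl fun p _ => ?_
        ring
      have e2 : (ep / Gb) / 2 * Real.log (Real.log y) = (ep / 2 * Real.log (Real.log y)) / Gb := by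
        ring
      rw [e1, e2]
      exact div_lt_div_of_pos_right h8 hGb0
  choose! CS hCS using hTS
  -- the good patterns
  have hgood : ∀ π ∈ univ.filter (fun π : ι → Fin 4 => ∀ S ∈ Sg, π ∉ Spc e K S),
      Bp g L z A K π := fun π hπ =>
    pat2 hB (abs_nonneg C2) h2' hL hK0 Sg hK (by omega) hX π (mem_filter.1 hπ).2
  choose! CP hCP using hgood
  refine ⟨∑ π ∈ univ.filter (fun π : ι → Fin 4 => ∀ S ∈ Sg, π ∉ Spc e K S), CP π +
    ∑ S ∈ Sg, CS S, fun y hy => ?_⟩
  rw [AG.total_eq, AT.patterns z y (AT.VV A (Real.log y)) (AT.YY A (Real.log y))]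
  have h3 : ∑ π : ι → Fin 4, ∑ d ∈ Fintype.piFinset (fun k => cell z y (VV A (Real.log y))
      (YY A (Real.log y)) (π k)), HG g L d =
      ∑ π ∈ univ.filter (fun π : ι → Fin 4 => ∀ S ∈ Sg, π ∉ Spc e K S), Tp g L z A y π +
        ∑ S ∈ Sg, ∑ π ∈ Spc e K S, Tp g L z A y π := by
    have hdj : (Sg : Set (Finset ι)).PairwiseDisjoint (Spc e K) := by
      intro S hS S' hS' hne
      rw [Function.onFun, disjoint_left]
      intro π hπ hπ'
      unfold Spc at hπ hπ'
      rw [mem_filter] at hπ hπ'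
      have h4 : ∑ k ∈ Ul π, e k ≤ ∑ k ∈ S ∩ S', e k :=
        sum_le_sum_of_subset_of_nonneg (subset_inter hπ.2.2.1 hπ'.2.2.1) fun i _ _ => (he i).le
      have h5 := hSS S hS S' hS' hne
      have h6 := hπ.2.2.2
      linarith
    have hbi : ∑ S ∈ Sg, ∑ π ∈ Spc e K S, Tp g L z A y π =
        ∑ π ∈ Sg.biUnion (Spc e K), Tp g L z A y π := (sum_biUnion hdj).symm
    rw [hbi]
    rw [← sum_filter_add_sum_filter_not (univ : Finset (ι → Fin 4))
        (fun π : ι → Fin 4 => ∀ S ∈ Sg, π ∉ Spc e K S)]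
    congr 1
    have h4 : univ.filter (fun π : ι → Fin 4 => ¬ ∀ S ∈ Sg, π ∉ Spc e K S) =
        Sg.biUnion (Spc e K) := by
      ext π
      rw [mem_filter, mem_biUnion]
      push Not
      simp
    rw [h4]
    rfl
  rw [h3, add_mul, sum_mul, sum_mul]
  refine (abs_add_le _ _).trans (add_le_add ?_ ?_)
  · exact (abs_sum_le_sum_abs _ _).trans (sum_le_sum fun π hπ => hCP π hπ y hy)
  · exact (abs_sum_le_sum_abs _ _).trans (sum_le_sum fun S hS => hCS S hS y hy)

end Pool.Agent.L0h5.AH
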