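import Pool.Agent.L0h5.AH.B4

/-!
# The refined abstract bound, weights zero allowed
-/

set_option autoImplicit false
set_option linter.unusedSectionVars false

namespace Pool.Agent.L0h5.AH

open Finset Pool.Agent.W262.RK Pool.Agent.W262.RK.AT Pool.Agent.L0h5.AG

variable {ι : Type} [Fintype ι] [DecidableEq ι]

lemma prod_sub (Q : ι → Prop) [DecidablePred Q] (F : ι → ℝ) (hF : ∀ i, ¬ Q i → F i = 1) :
    ∏ i, F i = ∏ i : {i // Q i}, F i.1 := by
  rw [← prod_filter_mul_prod_filter_not univ Q F,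
    prod_eq_one fun i hi => hF i (mem_filter.1 hi).2, mul_one]
  exact prod_subtype (univ.filter Q) (fun i => by simp) F

lemma sum_sub0 (Q : ι → Prop) [DecidablePred Q] (S : Finset ι) (F : ι → ℝ)
    (hF : ∀ i, ¬ Q i → F i = 0) :
    ∑ i ∈ S, F i = ∑ i ∈ (univ.filter fun i : {i // Q i} => i.1 ∈ S), F i.1 := by
  rw [← sum_filter_add_sum_filter_not S Q F,
    sum_eq_zero (s := S.filter fun i => ¬ Q i) (fun i hi => hF i (mem_filter.1 hi).2), add_zero]
  refine sum_bij' (fun i hi => ⟨i, (mem_filter.1 hi).2⟩) (fun i _ => i.1) ?_ ?_ ?_ ?_ ?_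
  · intro i hi
    rw [mem_filter]
    exact ⟨mem_univ _, (mem_filter.1 hi).1⟩
  · intro i hi
    rw [mem_filter] at hi ⊢
    exact ⟨hi.2, i.2⟩
  · intro i _
    rfl
  · intro i _
    rfl
  · intro i _
    rfl

/-- the extension by `1` -/
def ex1 (Q : ι → Prop) [DecidablePred Q] (d : {i // Q i} → ℕ) (i : ι) : ℕ :=
  if h : Q i then d ⟨i, h⟩ else 1

omit [Fintype ι] [DecidableEq ι] in
lemma ex1_mem {Q : ι → Prop} [DecidablePred Q] (d : {i // Q i} → ℕ) (i : {i // Q i}) :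
    ex1 Q d i.1 = d i := by
  unfold ex1
  rw [dif_pos i.2]

omit [Fintype ι] [DecidableEq ι] in
lemma ex1_not {Q : ι → Prop} [DecidablePred Q] (d : {i // Q i} → ℕ) {i : ι} (h : ¬ Q i) :
    ex1 Q d i = 1 := by
  unfold ex1
  rw [dif_neg h]

lemma Jr_right_one (a : ℤ) : Jr a 1 = 1 := by
  simp [Jr]

lemma Jr_left_one (n : ℕ) : Jr 1 n = 1 := by
  simp [Jr, jacobiSym.one_left]

lemma Sym_sub (Q : ι → Prop) [DecidablePred Q] (L : ι → ι → Bool) (d : ι → ℕ)
    (hd : ∀ i, ¬ Q i → d i = 1) :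
    Sym L (fun _ => 1) d = Sym (fun i j : {i // Q i} => L i.1 j.1) (fun _ => 1)
      (fun i => d i.1) := by
  unfold Pool.Agent.W262.RK.Sym
  congr 1
  · rw [prod_sub Q]
    · refine prod_congr rfl fun i _ => ?_
      rw [prod_sub Q]
      intro j hj
      rw [hd j hj, Jr_right_one]
      simp
    · intro i hi
      refine prod_eq_one fun j _ => ?_
      rw [hd i hi, Nat.cast_one, Jr_left_one]
      simp
  · rw [prod_sub Q]
    intro i hi
    rw [hd i hi, Jr_right_one]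

lemma XX_sub (Q : ι → Prop) [DecidablePred Q] (L : ι → ι → Bool) (d : {i // Q i} → ℕ)
    (i : {i // Q i}) (m : ℕ) :
    XX L i.1 (ex1 Q d) m = XX (fun i j : {i // Q i} => L i.1 j.1) i d m := by
  classical
  unfold XX
  have h1 : ∀ F : ι → ℝ, ∏ b ∈ univ.erase i.1, F b = ∏ b, if b = i.1 then 1 else F b := by
    intro F
    rw [← mul_prod_erase univ _ (mem_univ i.1), if_pos rfl, one_mul]
    exact prod_congr rfl fun b hb => by rw [if_neg (ne_of_mem_erase hb)]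
  have h2 : ∀ F : {i // Q i} → ℝ, ∏ b ∈ univ.erase i, F b = ∏ b, if b = i then 1 else F b := by
    intro F
    rw [← mul_prod_erase univ _ (mem_univ i), if_pos rfl, one_mul]
    exact prod_congr rfl fun b hb => by rw [if_neg (ne_of_mem_erase hb)]
  rw [h1, h2, prod_sub Q]
  · refine prod_congr rfl fun b _ => ?_
    by_cases hb : b = i
    · rw [if_pos hb, if_pos (by rw [hb])]
    · rw [if_neg hb, if_neg (fun h => hb (Subtype.ext h)), ex1_mem]
  · intro b hb
    rw [ex1_not d hb, Jr_right_one, Nat.cast_one, Jr_left_one]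
    simp

lemma sum_subT (Q : ι → Prop) [DecidablePred Q] (g : ι → ℕ → ℝ) (L : ι → ι → Bool) (z y : ℕ)
    (hg : ∀ i, ¬ Q i → ∀ p ∈ PS z y, g i p = 0) :
    ∑ d ∈ Tup ι z y, (∏ i, gg g i (d i)) * Sym L (fun _ => 1) d =
      ∑ d ∈ Tup {i // Q i} z y, (∏ i, gg (fun i : {i // Q i} => g i.1) i (d i)) *
        Sym (fun i j : {i // Q i} => L i.1 j.1) (fun _ => 1) d := by
  classical
  have h1 : ∑ d ∈ Tup ι z y, (∏ i, gg g i (d i)) * Sym L (fun _ => 1) d =
      ∑ d ∈ (Tup ι z y).filter (fun d => ∀ i, ¬ Q i → d i = 1),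
        (∏ i, gg g i (d i)) * Sym L (fun _ => 1) d := by
    symm
    apply sum_filter_of_ne
    intro d hd hne i hi
    by_contra hcon
    apply hne
    have h2 : (∏ i, gg g i (d i)) = 0 := by
      apply prod_eq_zero (mem_univ i)
      obtain ⟨p, hp, hpd⟩ := Nat.exists_prime_and_dvd hcon
      unfold Tup at hd
      rw [mem_filter, Fintype.mem_piFinset] at hd
      have h3 := hd.1 i
      have h4 : p ∈ (d i).primeFactors := Nat.mem_primeFactors.2
        ⟨hp, hpd, (Nat.pos_of_mem_divisors h3).ne'⟩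
      unfold gg
      apply prod_eq_zero h4
      apply hg i hi
      exact (prime_dvd_PP hp).1 (hpd.trans (Nat.dvd_of_mem_divisors h3))
    rw [h2, zero_mul]
  rw [h1]
  refine sum_nbij' (fun d => fun i => d i.1) (fun d => ex1 Q d) ?_ ?_ ?_ ?_ ?_
  · intro d hd
    rw [mem_filter] at hd
    unfold Tup at hd ⊢
    rw [mem_filter, Fintype.mem_piFinset] at hd ⊢
    exact ⟨fun i => hd.1.1 i.1, fun i j hij => hd.1.2 i.1 j.1 (fun h => hij (Subtype.ext h))⟩
  · intro d hd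
    unfold Tup at hd ⊢
    rw [mem_filter, mem_filter, Fintype.mem_piFinset] at *
    refine ⟨⟨fun i => ?_, fun i j hij => ?_⟩, fun i hi => ex1_not d hi⟩
    · by_cases hi : Q i
      · have := hd.1 ⟨i, hi⟩
        rwa [← ex1_mem d ⟨i, hi⟩] at this
      · rw [ex1_not d hi, Nat.mem_divisors]
        exact ⟨one_dvd _, PP_ne_zero z y⟩
    · by_cases hi : Q i
      · by_cases hj : Q j
        · have := hd.2 ⟨i, hi⟩ ⟨j, hj⟩ (fun h => hij (by simpa using congrArg Subtype.val h))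
          rwa [← ex1_mem d ⟨i, hi⟩, ← ex1_mem d ⟨j, hj⟩] at this
        · rw [ex1_not d hj]
          exact Nat.coprime_one_right _
      · rw [ex1_not d hi]
        exact Nat.coprime_one_left _
  · intro d hd
    rw [mem_filter] at hd
    funext i
    by_cases hi : Q i
    · exact ex1_mem (Q := Q) (fun i => d i.1) ⟨i, hi⟩
    · rw [ex1_not _ hi, hd.2 i hi]
  · intro d _
    funext i
    exact ex1_mem d i
  · intro d hd
    rw [mem_filter] at hd
    rw [Sym_sub Q L d hd.2]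
    congr 1
    rw [prod_sub Q]
    · rfl
    · intro i hi
      rw [hd.2 i hi, gg_one]

/-- the joint bound for the indices of `S`, with a saving at indices of positive weight -/
def JtC (e : ι → ℝ) (g : ι → ℕ → ℝ) (L : ι → ι → Bool) (S : Finset ι) (z : ℕ) (K ep Gb : ℝ) :
    Prop :=
  ∃ (m gp : ℕ → ℝ) (Cm : ℝ) (TS : Finset ι), (∀ i ∈ TS, 0 < e i) ∧ TS ⊆ S ∧ (∀ p, 0 ≤ m p) ∧
    (∀ p, p.Prime → z < p → 0 ≤ gp p ∧ gp p ≤ Gb / (p : ℝ)) ∧
    (∀ y : ℕ, z < y → ∑ p ∈ PS z y, m p ≤ K * Real.log (Real.log y) + Cm) ∧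
    (∀ y : ℕ, z < y → |∑ p ∈ PS z y, gp p - ep * Real.log (Real.log y)| ≤ Cm) ∧
    (∀ y : ℕ, z < y → ∀ e : ι → ℕ, (∀ b, e b ∈ (PP z y).divisors) → (∀ b ∈ S, e b = 1) →
      ∀ p ∈ PS z y, ¬ p ∣ ∏ b, e b → ∑ i ∈ S, g i p * XX L i e p ≤ m p ∧ ∀ i0 ∈ TS,
        ∑ i ∈ S, g i p * XX L i e p ≤ m p - gp p * (1 - XX L i0 e p)) ∧
    ∀ j, j ∉ S → ∃ i ∈ TS, L i j ≠ L j i

lemma prod_ex1 (Q : ι → Prop) [DecidablePred Q] (d : {i // Q i} → ℕ) :
    ∏ b, ex1 Q d b = ∏ b, d b := by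
  rw [← prod_filter_mul_prod_filter_not univ Q,
    prod_eq_one (s := univ.filter fun i => ¬ Q i) fun i hi => ex1_not d (mem_filter.1 hi).2, mul_one,
    prod_subtype (p := Q) (univ.filter Q) (fun i => by simp) (ex1 Q d)]
  exact prod_congr rfl fun b _ => ex1_mem d b

/-- **The refined abstract bound with general weights, zero allowed.** -/
theorem ag2z (ι : Type) [Fintype ι] [DecidableEq ι] (e : ι → ℝ) (L : ι → ι → Bool) (c : ℕ) (K : ℝ)
    (ep Gb : ℝ) (hep : 0 < ep) (hGb : 1 ≤ Gb) (hK0 : 0 ≤ K) (Sg : Finset (Finset ι))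
    (he : ∀ i, 0 ≤ e i) (hL : ∀ i, L i i = false)
    (hK : ∀ U : Finset ι, (∀ i ∈ U, ∀ j ∈ U, L i j = L j i) →
      ∑ i ∈ U, e i ≤ K ∨ ∃ S ∈ Sg, U ⊆ S)
    (hS0 : ∀ S ∈ Sg, ∀ i ∈ S, ∀ j ∈ S, L i j = false)
    (hSS : ∀ S ∈ Sg, ∀ S' ∈ Sg, S ≠ S' → ∑ i ∈ S ∩ S', e i < K) :
    ∃ z0 : ℕ, ∀ z, z0 ≤ z → ∀ (g : ι → ℕ → ℝ) (Cg : ℝ),
      (∀ i, e i = 0 → ∀ p : ℕ, p.Prime → z < p → g i p = 0) →
      (∀ i p, p.Prime → z < p → |g i p| ≤ (1 / 2) / ((p : ℝ) - c)) →
      (∀ i (y : ℕ), z < y → ∑ p ∈ PS z y, |g i p| ≤ e i * Real.log (Real.log y) + Cg) →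
      (∀ S ∈ Sg, JtA g L S z K ∨ JtC e g L S z K ep Gb) →
      ∃ C : ℝ, ∀ y, z < y →
        |∑ d ∈ Tup ι z y, (∏ i, gg g i (d i)) * Sym L (fun _ => 1) d| ≤ C * (Real.log y) ^ K := by
  classical
  set Q : ι → Prop := fun i => 0 < e i with hQ
  set re : Finset ι → Finset {i // Q i} := fun S => univ.filter fun i => i.1 ∈ S with hre
  have mem_re : ∀ (S : Finset ι) (i : {i // Q i}), i ∈ re S ↔ i.1 ∈ S := by
    intro S i
    rw [hre]
    simp only [mem_filter, mem_univ, true_and]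
  have hne : ∀ i, ¬ Q i → e i = 0 := fun i hi => le_antisymm (not_lt.1 hi) (he i)
  set up : Finset {i // Q i} → Finset ι := fun U => U.map ⟨Subtype.val, Subtype.val_injective⟩
    with hup
  obtain ⟨z0, hz0⟩ := ag2 {i // Q i} (fun i => e i.1) (fun i j => L i.1 j.1) c K ep Gb hep hGb hK0
    (Sg.image re) (fun i => i.2) (fun i => hL i.1)
    (fun U hU => by
      have h1 : ∀ i ∈ up U, ∀ j ∈ up U, L i j = L j i := by
        intro i hi j hj
        obtain ⟨i', hi', rfl⟩ := mem_map.1 hi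
        obtain ⟨j', hj', rfl⟩ := mem_map.1 hj
        exact hU i' hi' j' hj'
      rcases hK (up U) h1 with h2 | ⟨S, hS, h2⟩
      · left
        rw [hup, sum_map] at h2
        exact h2
      · right
        refine ⟨re S, mem_image_of_mem _ hS, fun i hi => ?_⟩
        rw [mem_re]
        exact h2 (mem_map.2 ⟨i, hi, rfl⟩))
    (fun S hS i hi j hj => by
      obtain ⟨S', hS', rfl⟩ := mem_image.1 hS
      rw [mem_re] at hi hj
      exact hS0 S' hS' _ hi _ hj)
    (fun S hS S' hS' hne' => by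
      obtain ⟨S1, hS1, rfl⟩ := mem_image.1 hS
      obtain ⟨S2, hS2, rfl⟩ := mem_image.1 hS'
      have h1 : S1 ≠ S2 := fun h => hne' (by rw [h])
      have h2 := hSS S1 hS1 S2 hS2 h1
      rw [sum_sub0 Q (S1 ∩ S2) e hne] at h2
      have h3 : re S1 ∩ re S2 = univ.filter fun i : {i // Q i} => i.1 ∈ S1 ∩ S2 := by
        ext i
        rw [mem_inter, mem_re, mem_re, mem_filter, mem_inter]
        simp
      rw [h3]
      exact h2)
  refine ⟨z0, fun z hz g Cg hg0 hg1 hg2 hJ => ?_⟩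
  have hgQ : ∀ i, ¬ Q i → ∀ p : ℕ, p.Prime → z < p → g i p = 0 := fun i hi => hg0 i (hne i hi)
  obtain ⟨C, hC⟩ := hz0 z hz (fun i => g i.1) Cg (fun i p hp hzp => hg1 i.1 p hp hzp)
    (fun i y hy => hg2 i.1 y hy) (fun S hS => by
      obtain ⟨S1, hS1, rfl⟩ := mem_image.1 hS
      have key : ∀ (d : {i // Q i} → ℕ) (p : ℕ), p.Prime → z < p →
          ∑ i ∈ re S1, g i.1 p * XX (fun i j : {i // Q i} => L i.1 j.1) i d p =
            ∑ i ∈ S1, g i p * XX L i (ex1 Q d) p := by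
        intro d p hp hzp
        rw [sum_sub0 Q S1 (fun i => g i p * XX L i (ex1 Q d) p)
          (fun i hi => by rw [hgQ i hi p hp hzp, zero_mul])]
        exact sum_congr rfl fun i _ => by rw [XX_sub]
      have hmem : ∀ (y : ℕ) (d : {i // Q i} → ℕ), (∀ b, d b ∈ (PP z y).divisors) →
          ∀ b, ex1 Q d b ∈ (PP z y).divisors := by
        intro y d hd b
        by_cases hb : Q b
        · rw [ex1_mem d ⟨b, hb⟩]
          exact hd _
        · rw [ex1_not d hb, Nat.mem_divisors]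
          exact ⟨one_dvd _, PP_ne_zero z y⟩
      have hone : ∀ (d : {i // Q i} → ℕ), (∀ b ∈ re S1, d b = 1) → ∀ b ∈ S1, ex1 Q d b = 1 := by
        intro d hd b hb
        by_cases hb' : Q b
        · rw [ex1_mem d ⟨b, hb'⟩]
          exact hd _ ((mem_re _ _).2 hb)
        · exact ex1_not d hb'
      rcases hJ S1 hS1 with h | h
      · left
        obtain ⟨m, K', Cm, h1, h2, h3, h4⟩ := h
        refine ⟨m, K', Cm, h1, h2, h3, fun y hy d hd hd1 p hp hpd => ?_⟩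
        rw [key d p (mem_PS.1 hp).2 (mem_PS.1 hp).1.1]
        refine h4 y hy (ex1 Q d) (hmem y d hd) (hone d hd1) p hp ?_
        rwa [prod_ex1]
      · right
        obtain ⟨m, gp, Cm, TS, h0, h1, h2, h3, h4, h5, h6, h7⟩ := h
        refine ⟨m, gp, Cm, re TS, ?_, h2, h3, h4, h5, fun y hy d hd hd1 p hp hpd => ?_, ?_⟩
        · intro i hi
          rw [mem_re] at hi ⊢
          exact h1 hi
        · have h8 := h6 y hy (ex1 Q d) (hmem y d hd) (hone d hd1) p hp (by rwa [prod_ex1])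
          rw [key d p (mem_PS.1 hp).2 (mem_PS.1 hp).1.1]
          refine ⟨h8.1, fun i0 hi0 => ?_⟩
          rw [mem_re] at hi0
          have h9 := h8.2 i0.1 hi0
          rwa [XX_sub] at h9
        · intro j hj
          rw [mem_re] at hj
          obtain ⟨i, hi, hij⟩ := h7 j.1 hj
          exact ⟨⟨i, h0 i hi⟩, (mem_re _ _).2 hi, hij⟩)
  refine ⟨C, fun y hy => ?_⟩
  rw [sum_subT Q g L z y fun i hi p hp => hgQ i hi p (mem_PS.1 hp).2 (mem_PS.1 hp).1.1]
  exact hC y hy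

end Pool.Agent.L0h5.AH
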